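import Pool.Agent.Run7.h537.AT.UDet
import Pool.Agent.W801.AV.T_FRE
import Pool.Agent.W801.AV.T_LRG
import Pool.Agent.W801.AV.T_SML

/-! From some cluster to every largest cluster. -/

set_option autoImplicit false

namespace Run7.h537.AT

open H974 H12S Finset H389NS H984P H984N H342P
open Pool.Agent.W424.OD Pool.Agent.W801.AV
open Pool.Agent.W801.AV.TFRE (cl SM key)
open Run7.h561 (Cu cluster_eq mem_box Cu_eq_of_mem)

open Classical in
/-- the accessible vertices of a set of vertices -/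
noncomputable def accW (n : ℕ) (W : Set (ℤ × ℤ)) : Finset (ℤ × ℤ) :=
  (Plain.box n).filter (fun w => w ∈ W ∧ ∃ (e : Plain.Edge) (p q : ℤ × ℤ),
    ((Plain.fst e = w ∧ Plain.snd e = p) ∨ (Plain.fst e = p ∧ Plain.snd e = w)) ∧
    p ∉ W ∧ q ∉ Plain.box n ∧ (avoidGraph W).Reachable p q)

theorem acc_eqW (n : ℕ) (F : Finset Edg) (v : ℤ × ℤ) :
    accessible n F v = accW n (Plain.cluster F v) := by
  classical
  ext w
  unfold accessible accW Accessible
  simp only [Finset.mem_filter]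

theorem cl_eq (F : Finset Edg) (v : Vtx) : cl F v = Cu (↑F : Set Edg) v := rfl

/-- many accessible vertices and a large diameter -/
def QW (n : ℕ) (A : ℝ) (W : Set (ℤ × ℤ)) : Prop :=
  A ≤ ((accW n W).card : ℝ) ∧ ∃ z ∈ W, ∃ z' ∈ W, (n : ℤ) ^ 2 ≤ 16 * Plain.sqDist z z'

/-- moreover `w` is the first vertex -/
def EW (n : ℕ) (A : ℝ) (w : Vtx) (W : Set (ℤ × ℤ)) : Prop :=
  QW n A W ∧ ∀ w' ∈ W, Encodable.encode w ≤ Encodable.encode w'

theorem first_ex {n : ℕ} {F : Finset Edg} (hF : F ⊆ RE 0 n 0 n) {A : ℝ} {u : Vtx}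
    (hu : u ∈ Plain.box n) (h : QW n A (cl F u)) : ∃ w ∈ Plain.box n, EW n A w (cl F w) := by
  classical
  set C : Finset Vtx := (Plain.box n).filter (fun z => z ∈ cl F u) with hC
  have hmem : ∀ z, z ∈ C ↔ z ∈ cl F u := by
    intro z
    rw [hC, Finset.mem_filter]
    exact ⟨fun h => h.2, fun h => ⟨Cu_box hF hu h, h⟩⟩
  obtain ⟨w, hw, hmin⟩ := Finset.exists_min_image C (fun z => Encodable.encode z)
    ⟨u, (hmem u).2 (Reach.refl _ _)⟩
  have hwu : w ∈ cl F u := (hmem w).1 hw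
  have e : cl F w = cl F u := Cu_eq_of_mem (F := (↑F : Set Edg)) hwu
  refine ⟨w, Cu_box hF hu hwu, ?_⟩
  rw [e]
  exact ⟨h, fun w' hw' => hmin w' ((hmem w').2 hw')⟩

theorem off_small {n : ℕ} {F : Finset Edg} (hF : F ⊆ RE 0 n 0 n) {w v : Vtx}
    (hv : v ∈ Plain.box n)
    (hS : SM (Plain.box n) (fun a b => 16 * Plain.sqDist a b < (n : ℤ) ^ 2) (cl F w) F)
    {a b : Vtx} (ha : a ∈ cl F v) (hb : b ∈ cl F v) (hab : (n : ℤ) ^ 2 ≤ 16 * Plain.sqDist a b) :
    cl F v = cl F w := by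
  have h1 : a ∈ cl F w := by
    by_contra hcon
    have := hS a (Cu_box hF hv ha) hcon b (Reach.trans (Reach.symm ha) hb)
    linarith
  rw [← show cl F a = cl F v from Cu_eq_of_mem (F := (↑F : Set Edg)) ha,
    ← show cl F a = cl F w from Cu_eq_of_mem (F := (↑F : Set Edg)) h1]

theorem low_all (n : ℕ) (A : ℝ) :
    PQ (1/2) (RE 0 n 0 n) (fun F => ∃ u ∈ Plain.box n, QW n A (cl F u)) *
      Pr (fun _ => (1 / 2 : ℝ)) (RE 0 n 0 n) (Sml n ∅) ≤
    PQ (1/2) (RE 0 n 0 n) (fun F => ∀ v, Plain.Largest n F v →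
      A ≤ ((accessible n F v).card : ℝ)) := by
  classical
  set S : Finset Edg := RE 0 n 0 n with hS
  set P : Vtx → Vtx → Prop := fun a b => 16 * Plain.sqDist a b < (n : ℤ) ^ 2 with hP
  have h1 : PQ (1/2) S (fun F => ∃ u ∈ Plain.box n, QW n A (cl F u)) ≤
      ∑ w ∈ Plain.box n, Pr (fun _ => (1/2:ℝ)) S (fun F => EW n A w (cl F w)) := by
    refine le_trans (Pr_mono ok2 ?_) (Pr_exists_le ok2 S (Plain.box n) (fun w F => EW n A w (cl F w)))
    rintro F hF ⟨u, hu, h⟩
    exact first_ex hF hu h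
  have h2 : ∀ w ∈ Plain.box n, Pr (fun _ => (1/2:ℝ)) S (fun F => EW n A w (cl F w)) *
      Pr (fun _ => (1/2:ℝ)) S (SM (Plain.box n) P ∅) ≤
      Pr (fun _ => (1/2:ℝ)) S (fun F => EW n A w (cl F w) ∧ SM (Plain.box n) P (cl F w) F) :=
    fun w hw => key ok2 S (Plain.box n) (TFRE.RE_box n) w hw P (EW n A w)
  have h3 : ∑ w ∈ Plain.box n, Pr (fun _ => (1/2:ℝ)) S
      (fun F => EW n A w (cl F w) ∧ SM (Plain.box n) P (cl F w) F) ≤
      PQ (1/2) S (fun F => ∀ v, Plain.Largest n F v → A ≤ ((accessible n F v).card : ℝ)) := by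
    unfold PQ Pr
    rw [← Ex_sum]
    apply Ex_mono ok2
    intro F hF
    by_cases hex : ∃ w ∈ Plain.box n, EW n A w (cl F w) ∧ SM (Plain.box n) P (cl F w) F
    · obtain ⟨w, hw, ⟨⟨hA, z, hz, z', hz', hzz⟩, hfirst⟩, hSM⟩ := hex
      have h4 : ∀ v, Plain.Largest n F v → A ≤ ((accessible n F v).card : ℝ) := by
        rintro v ⟨hvb, a, ha, b, hb, hmax⟩
        rw [cluster_eq] at ha hb
        have hzb : z ∈ Plain.box n := Cu_box hF hw hz
        have h5 := hmax z hzb z' (by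
          have : z' ∈ Plain.box n := Cu_box hF hw hz'
          exact this) (by
          rw [cluster_eq]
          exact Reach.trans (Reach.symm hz) hz')
        have h6 := off_small hF hvb hSM (a := a) (b := b) ha hb (by linarith)
        rw [acc_eqW, TFRE.cluster_eq, h6]
        exact hA
      rw [ind_of h4, Finset.sum_eq_single w]
      · exact ind_le_one _
      · intro w' hw' hne
        apply ind_not_of
        rintro ⟨⟨⟨-, y, hy, y', hy', hyy⟩, hfirst'⟩, -⟩
        apply hne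
        have h7 := off_small hF hw' hSM (a := y) (b := y') hy hy' hyy
        rw [h7] at hfirst'
        have h8 := hfirst' w (Reach.refl _ _)
        have h9 := hfirst w' (by rw [← h7]; exact Reach.refl _ _)
        exact Encodable.encode_injective (le_antisymm h8 h9)
      · intro h5
        exact absurd hw h5
    · rw [Finset.sum_eq_zero]
      · exact ind_nonneg _
      · intro w hw
        apply ind_not_of
        intro h5
        exact hex ⟨w, hw, h5⟩
  have h4 : Pr (fun _ => (1 / 2 : ℝ)) S (Sml n ∅) = Pr (fun _ => (1/2:ℝ)) S (SM (Plain.box n) P ∅) :=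
    Pr_congr (fun F _ => TFRE.Sml_eq n ∅ F)
  rw [h4]
  refine (mul_le_mul_of_nonneg_right h1 (Pr_nonneg ok2 _ _)).trans ?_
  rw [Finset.sum_mul]
  exact (Finset.sum_le_sum h2).trans h3

end Run7.h537.AT
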