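import Pool.Agent.Run7.h537.AT.LDet
import Pool.Agent.Run7.h537.AT.LLrg

/-! The lower bound of the tail. -/

set_option autoImplicit false

namespace Run7.h537.AT

open H974 H12S Finset H389NS H984P H984N H342P
open Pool.Agent.W424.OD Pool.Agent.W801.AV
open Run7.h561 (Cu cluster_eq mem_box Cu_eq_of_mem S_PBX S_GAD Gad)

theorem ind_low {I J y a m n : ℕ} (hI : I = (y - 1) / 256) (hJ : J = (y - 25) / 32)
    (hy : 600 ≤ y) (hyn : y * (a * m) ≤ n) (hyn2 : n < (y + 1) * (a * m)) :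
    1 ≤ I ∧ 1 ≤ J ∧ 256 * (I * (a * m)) + a * m ≤ n ∧ 32 * (J * (a * m)) + 25 * (a * m) ≤ n ∧
      n + 64 * (a * m) ≤ 1024 * (I * (a * m)) ∧ y ≤ 512 * I ∧ y ≤ 64 * J ∧ I ≤ y ∧ J ≤ y := by
  have h1 : 256 * I + 1 ≤ y := by omega
  have h2 : 32 * J + 25 ≤ y := by omega
  have h3 : y ≤ 256 * I + 256 := by omega
  refine ⟨by omega, by omega, ?_, ?_, ?_, by omega, by omega, by omega, by omega⟩
  · have := Nat.mul_le_mul_right (a * m) h1
    have e : (256 * I + 1) * (a * m) = 256 * (I * (a * m)) + a * m := by ring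
    omega
  · have := Nat.mul_le_mul_right (a * m) h2
    have e : (32 * J + 25) * (a * m) = 32 * (J * (a * m)) + 25 * (a * m) := by ring
    omega
  · have h4 : y + 65 ≤ 1024 * I := by omega
    have := Nat.mul_le_mul_right (a * m) h4
    have e : (y + 65) * (a * m) = (y + 1) * (a * m) + 64 * (a * m) := by ring
    have e' : 1024 * I * (a * m) = 1024 * (I * (a * m)) := by ring
    omega

theorem pow_exp {r : ℝ} (hr : 0 < r) (N : ℕ) : r ^ N = Real.exp (-(N * (-Real.log r))) := by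
  rw [show -((N : ℝ) * (-Real.log r)) = N * Real.log r by ring, Real.exp_nat_mul, Real.exp_log hr]

theorem scale {n m c3 : ℝ} (hn : 0 < n) (hm : 0 < m) :
    c3 * (n ^ 2 * m ^ (4/3:ℝ) / m ^ 2) = c3 * (n ^ (4/3:ℝ) * (n / m) ^ (2/3:ℝ)) := by
  congr 1
  have e1 : n ^ 2 = n ^ (4/3:ℝ) * n ^ (2/3:ℝ) := by
    rw [← Real.rpow_add hn]
    norm_num
  have e2 : m ^ 2 = m ^ (4/3:ℝ) * m ^ (2/3:ℝ) := by
    rw [← Real.rpow_add hm]
    norm_num
  rw [e1, e2, Real.div_rpow hn.le hm.le]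
  have h1 : m ^ (4/3:ℝ) ≠ 0 := (Real.rpow_pos_of_pos hm _).ne'
  have h2 : m ^ (2/3:ℝ) ≠ 0 := (Real.rpow_pos_of_pos hm _).ne'
  field_simp

theorem low (pbx : S_PBX) (gad : S_GAD) (sml : S_SML) : ∃ (C c : ℝ) (n0 : ℕ), 0 < C ∧ 0 < c ∧
    ∀ n : ℕ, n0 ≤ n → ∀ x : ℝ, 1 ≤ x → x ≤ c * (n:ℝ) ^ (2/3:ℝ) →
      Real.exp (-(C * x ^ 3)) ≤ PQ (1/2) (RE 0 n 0 n) (fun F => ∀ v, Plain.Largest n F v →
        x * (n:ℝ) ^ (4/3:ℝ) ≤ ((accessible n F v).card : ℝ)) := by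
  obtain ⟨κ, κ0, κ1, hκ⟩ := pbx
  obtain ⟨M, B, a0, d, -, -, hd, hgad⟩ := gad 1 (by norm_num) (by norm_num)
  set b : ℕ := d * (a0 + 12) with hb
  set a : ℕ := 2 * b with ha
  have hb12 : a0 + 12 ≤ b := Nat.le_mul_of_pos_left _ (by omega)
  have ha24 : 24 ≤ a := by omega
  obtain ⟨p, c0, E0, m0, hp, hc0, hE0, hm0⟩ := hgad a (by omega)
    ⟨2 * (a0 + 12), by rw [ha, hb]; ring⟩ ⟨b, by rw [ha]; ring⟩
  choose! G hG using hm0
  have hp1 : p ≤ 1 := ((hG m0 le_rfl).prob _ (Finset.Subset.refl _)).trans (Pr_le_one ok2 _ _)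
  obtain ⟨q, n1, hq, hsml⟩ := sml
  have hq1 : q ≤ 1 := (hsml n1 le_rfl).trans (Pr_le_one ok2 _ _)
  have haR : (24:ℝ) ≤ a := by exact_mod_cast ha24
  have haP : (0:ℝ) < a := by linarith
  obtain ⟨c3, hc3⟩ : ∃ c3 : ℝ, c3 = c0 / (3276800 * (a:ℝ) ^ 2) := ⟨_, rfl⟩
  have hc30 : 0 < c3 := by rw [hc3]; positivity
  obtain ⟨K1, hK1⟩ : ∃ K1 : ℝ, K1 = (1 / c3) ^ (3/2:ℝ) + 601 * a := ⟨_, rfl⟩
  have hK10 : 0 < K1 := by rw [hK1]; positivity
  have hmm : (0:ℝ) < 2 * (m0 + 1) := by positivity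
  have lκ : 0 ≤ -Real.log κ := by have := Real.log_nonpos κ0.le κ1; linarith
  have lp : 0 ≤ -Real.log p := by have := Real.log_nonpos hp.le hp1; linarith
  have lq : 0 ≤ -Real.log q := by have := Real.log_nonpos hq.le hq1; linarith
  obtain ⟨CC', hCC⟩ : ∃ CC' : ℝ, CC' = 2 * (257 * 57 * ((b:ℝ) * b)) * (-Real.log κ) * (4 * K1 ^ 2) +
    (-Real.log p) * (4 * K1 ^ 2) + (-Real.log q) + 1 := ⟨_, rfl⟩
  refine ⟨CC', c3 * (1 / (2 * (m0 + 1))) ^ (2/3:ℝ), n1 + 1202 * a * (m0 + 1),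
    by rw [hCC]; positivity, by positivity, fun n hn x hx1 hx2 => ?_⟩
  have hn1 : n1 ≤ n := by omega
  have hn2 : 1202 * a * (m0 + 1) ≤ n := by omega
  have hnpos : 0 < n := by
    have : 0 < 1202 * a * (m0 + 1) := by positivity
    omega
  have hn0 : (0:ℝ) < n := by exact_mod_cast hnpos
  have hx0 : 0 < x := by linarith
  have hx3 : 1 ≤ x ^ 3 := one_le_pow₀ hx1
  -- the scale
  obtain ⟨lam, hlam⟩ : ∃ lam : ℝ, lam = (x / c3) ^ (3/2:ℝ) + 601 * a := ⟨_, rfl⟩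
  have hlam0 : 0 < lam := by rw [hlam]; positivity
  have hlamn : lam * (m0 + 1) ≤ n := by
    have h1 : (x / c3) ^ (3/2:ℝ) ≤ n / (2 * (m0 + 1)) := by
      have h2 : x / c3 ≤ (n / (2 * (m0 + 1))) ^ (2/3:ℝ) := by
        rw [div_le_iff₀ hc30]
        refine hx2.trans (le_of_eq ?_)
        have e : ((n:ℝ) / (2 * (m0 + 1))) ^ (2/3:ℝ) =
            (n:ℝ) ^ (2/3:ℝ) * (1 / (2 * (m0 + 1))) ^ (2/3:ℝ) := by
          rw [← Real.mul_rpow hn0.le (by positivity)]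
          congr 1
          ring
        rw [e]
        ring
      have h3 := Real.rpow_le_rpow (by positivity) h2 (by norm_num : (0:ℝ) ≤ 3/2)
      rw [← Real.rpow_mul (by positivity)] at h3
      norm_num at h3
      exact h3
    have h4 : (601 * a : ℝ) ≤ n / (2 * (m0 + 1)) := by
      rw [le_div_iff₀ hmm]
      have : ((1202 * a * (m0 + 1) : ℕ) : ℝ) ≤ n := by exact_mod_cast hn2
      push_cast at this
      linarith
    have h5 : lam ≤ n / (m0 + 1) := by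
      have e : (n:ℝ) / (m0 + 1) = n / (2 * (m0 + 1)) + n / (2 * (m0 + 1)) := by
        field_simp; ring
      rw [hlam, e]
      linarith
    rwa [le_div_iff₀ (by positivity)] at h5
  obtain ⟨m, hm⟩ : ∃ m : ℕ, m = ⌊(n:ℝ) / lam⌋₊ := ⟨_, rfl⟩
  have hnl : (m0:ℝ) + 1 ≤ n / lam := by
    rw [le_div_iff₀ hlam0]; linarith
  have hmm0 : m0 + 1 ≤ m := by
    rw [hm]
    apply Nat.le_floor
    push_cast
    exact hnl
  have hm1 : 1 ≤ m := by omega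
  have hmR : (1:ℝ) ≤ m := by exact_mod_cast hm1
  have hmP : (0:ℝ) < m := by linarith
  have hmle : (m:ℝ) ≤ n / lam := by rw [hm]; exact Nat.floor_le (by positivity)
  have hmge : (n:ℝ) / lam ≤ 2 * m := by
    have : (n:ℝ) / lam < m + 1 := by rw [hm]; exact Nat.lt_floor_add_one _
    linarith
  have hlm : lam * m ≤ n := by
    rw [le_div_iff₀ hlam0] at hmle; linarith
  have hml : (n:ℝ) ≤ 2 * lam * m := by
    rw [div_le_iff₀ hlam0] at hmge; linarith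
  have h601 : 601 * (a * m) ≤ n := by
    have h1 : (601 * a : ℝ) ≤ lam := by
      rw [hlam]
      have : 0 ≤ (x / c3) ^ (3/2:ℝ) := by positivity
      linarith
    have h2 : (601 * a : ℝ) * m ≤ n := (mul_le_mul_of_nonneg_right h1 hmP.le).trans hlm
    have h3 : ((601 * (a * m) : ℕ) : ℝ) ≤ n := by push_cast; linarith
    exact_mod_cast h3
  have hU0 : 0 < a * m := Nat.mul_pos (by omega) hm1
  obtain ⟨y, hy⟩ : ∃ y : ℕ, y = n / (a * m) := ⟨_, rfl⟩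
  have hy600 : 600 ≤ y := by
    rw [hy, Nat.le_div_iff_mul_le hU0]
    omega
  have hyn : y * (a * m) ≤ n := by rw [hy]; exact Nat.div_mul_le_self _ _
  have hyn2 : n < (y + 1) * (a * m) := by
    rw [hy, mul_comm]
    exact Nat.lt_mul_div_succ n hU0
  obtain ⟨I, hI⟩ : ∃ I : ℕ, I = (y - 1) / 256 := ⟨_, rfl⟩
  obtain ⟨J, hJ⟩ : ∃ J : ℕ, J = (y - 25) / 32 := ⟨_, rfl⟩
  obtain ⟨i1, i2, i3, i4, i5, i6, i7, i8, i9⟩ := ind_low hI hJ hy600 hyn hyn2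
  -- the probability of the comb
  have hcp := comb_pr κ0 κ1 hκ hp (a := a) (b := b) (m := m) (I := I) (J := J) (n := n) ha ha24 hm1
    i2 i3 i4 (hG m (by omega)).toGLc
  have hcard := Cells_card (b := b) (by omega) i1 i2
  have hIJ : ((I * J : ℕ) : ℝ) ≤ 4 * K1 ^ 2 * x ^ 3 := by
    have h1 : (y:ℝ) ≤ n / m := by
      rw [le_div_iff₀ hmP]
      have h2 : (y:ℝ) * (a * m) ≤ n := by exact_mod_cast hyn
      have h3 : (y:ℝ) * m ≤ y * (a * m) := by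
        apply mul_le_mul_of_nonneg_left _ (by positivity)
        nlinarith
      linarith
    have h2 : (n:ℝ) / m ≤ 2 * lam := by rw [div_le_iff₀ hmP]; exact hml
    have h3 : lam ≤ K1 * x ^ (3/2:ℝ) := by
      rw [hlam, hK1, add_mul]
      have e : (x / c3) ^ (3/2:ℝ) = (1 / c3) ^ (3/2:ℝ) * x ^ (3/2:ℝ) := by
        rw [← Real.mul_rpow (by positivity) hx0.le]
        congr 1
        ring
      rw [e]
      have h4 : 1 ≤ x ^ (3/2:ℝ) := Real.one_le_rpow hx1 (by norm_num)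
      have : (601 * a : ℝ) ≤ 601 * a * x ^ (3/2:ℝ) := le_mul_of_one_le_right (by positivity) h4
      linarith
    have h4 : (y:ℝ) ≤ 2 * (K1 * x ^ (3/2:ℝ)) := by linarith
    have h5 : ((I * J : ℕ) : ℝ) ≤ (y:ℝ) * y := by
      have : I * J ≤ y * y := Nat.mul_le_mul i8 i9
      exact_mod_cast this
    have h6 : (y:ℝ) * y ≤ (2 * (K1 * x ^ (3/2:ℝ))) * (2 * (K1 * x ^ (3/2:ℝ))) :=
      mul_le_mul h4 h4 (by positivity) (by positivity)
    have e : x ^ (3/2:ℝ) * x ^ (3/2:ℝ) = x ^ 3 := by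
      rw [← Real.rpow_add hx0]
      norm_num
    calc ((I * J : ℕ) : ℝ) ≤ (y:ℝ) * y := h5
      _ ≤ _ := h6
      _ = 4 * K1 ^ 2 * (x ^ (3/2:ℝ) * x ^ (3/2:ℝ)) := by ring
      _ = _ := by rw [e]
  have hexp : Real.exp (-(CC' * x ^ 3)) ≤ κ ^ (Cells b I J).card * κ ^ (Cells b I J).card *
      p ^ (I * J) * q := by
    have eq' : Real.exp (-(-Real.log q)) = q := by rw [neg_neg, Real.exp_log hq]
    rw [pow_exp κ0, pow_exp hp]
    have e0 : Real.exp (-(((Cells b I J).card : ℝ) * -Real.log κ)) *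
        Real.exp (-(((Cells b I J).card : ℝ) * -Real.log κ)) *
        Real.exp (-(((I * J : ℕ) : ℝ) * -Real.log p)) * q =
        Real.exp (-(((Cells b I J).card : ℝ) * -Real.log κ) +
          -(((Cells b I J).card : ℝ) * -Real.log κ) +
          -(((I * J : ℕ) : ℝ) * -Real.log p) + -(-Real.log q)) := by
      rw [Real.exp_add, Real.exp_add, Real.exp_add, eq']
    rw [e0]
    apply Real.exp_le_exp.2
    have h1 : ((Cells b I J).card : ℝ) ≤ 257 * 57 * ((b:ℝ) * b) * (4 * K1 ^ 2 * x ^ 3) := by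
      have h2 : ((Cells b I J).card : ℝ) ≤ ((257 * 57 * (b * b) * (I * J) : ℕ) : ℝ) := by
        exact_mod_cast hcard
      refine h2.trans ?_
      rw [Nat.cast_mul]
      have e : ((257 * 57 * (b * b) : ℕ) : ℝ) = 257 * 57 * ((b:ℝ) * b) := by push_cast; ring
      rw [e]
      exact mul_le_mul_of_nonneg_left hIJ (by positivity)
    have h2 := mul_le_mul_of_nonneg_right h1 lκ
    have h3 := mul_le_mul_of_nonneg_right hIJ lp
    have h4 : -Real.log q ≤ (-Real.log q) * x ^ 3 := le_mul_of_one_le_right lq hx3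
    have h5 : 0 ≤ x ^ 3 := by positivity
    have h6 : CC' * x ^ 3 = 2 * (257 * 57 * ((b:ℝ) * b) * (4 * K1 ^ 2 * x ^ 3) * (-Real.log κ)) +
        4 * K1 ^ 2 * x ^ 3 * (-Real.log p) + (-Real.log q) * x ^ 3 + x ^ 3 := by
      rw [hCC]; ring
    linarith
  refine hexp.trans ?_
  refine le_trans ?_ (low_all n (x * (n:ℝ) ^ (4/3:ℝ)))
  refine mul_le_mul ?_ (hsml n hn1) hq.le (Pr_nonneg ok2 _ _)
  refine hcp.trans (Pr_mono ok2 ?_)
  intro F hF hcomb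
  obtain ⟨u, hu, h1, h2⟩ := comb_det (hG m (by omega)) ha ha24 hm1 i1 i2 i3 i4 i5 hF hcomb
  refine ⟨u, hu, ?_, h2⟩
  have e : accW n (TFRE.cl F u) = accessible n F u := by
    rw [acc_eqW, TFRE.cluster_eq]
  rw [e]
  -- comparison
  have hIJ2 : (n:ℝ) ^ 2 / (131072 * ((a:ℝ) ^ 2 * (m:ℝ) ^ 2)) ≤ ((I * J : ℕ) : ℝ) := by
    have h3 : (y:ℝ) * y ≤ 32768 * ((I * J : ℕ) : ℝ) := by
      have : y * y ≤ (512 * I) * (64 * J) := Nat.mul_le_mul i6 i7
      have h4 : ((y * y : ℕ) : ℝ) ≤ ((512 * I * (64 * J) : ℕ) : ℝ) := by exact_mod_cast this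
      push_cast at h4 ⊢
      linarith
    have h4 : (n:ℝ) ≤ 2 * (y * (a * m)) := by
      have h5 : n ≤ 2 * (y * (a * m)) := by
        have : (y + 1) * (a * m) ≤ 2 * (y * (a * m)) := by
          have := Nat.mul_le_mul_right (a * m) (show y + 1 ≤ 2 * y by omega)
          linarith
        omega
      exact_mod_cast h5
    rw [div_le_iff₀ (by positivity)]
    have h5 : (n:ℝ) ^ 2 ≤ (2 * (y * (a * m))) ^ 2 := pow_le_pow_left₀ hn0.le h4 2
    have h6 : (2 * ((y:ℝ) * (a * m))) ^ 2 = 4 * ((y:ℝ) * y) * ((a:ℝ) ^ 2 * (m:ℝ) ^ 2) := by ring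
    rw [h6] at h5
    have h7 : 4 * ((y:ℝ) * y) * ((a:ℝ) ^ 2 * (m:ℝ) ^ 2) ≤
        4 * (32768 * ((I * J : ℕ) : ℝ)) * ((a:ℝ) ^ 2 * (m:ℝ) ^ 2) := by
      apply mul_le_mul_of_nonneg_right _ (by positivity)
      linarith
    linarith
  have hm43 : 0 < (m:ℝ) ^ (4/3:ℝ) := by positivity
  have h3 : (n:ℝ) ^ 2 / (131072 * ((a:ℝ) ^ 2 * (m:ℝ) ^ 2)) * (c0 * (m:ℝ) ^ (4/3:ℝ)) ≤
      25 * ((accessible n F u).card : ℝ) :=
    (mul_le_mul_of_nonneg_right hIJ2 (by positivity)).trans h1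
  have h4 : (n:ℝ) ^ 2 / (131072 * ((a:ℝ) ^ 2 * (m:ℝ) ^ 2)) * (c0 * (m:ℝ) ^ (4/3:ℝ)) =
      25 * (c3 * ((n:ℝ) ^ 2 * (m:ℝ) ^ (4/3:ℝ) / (m:ℝ) ^ 2)) := by
    rw [hc3]
    field_simp
    norm_num
  rw [h4, scale hn0 hmP] at h3
  have h5 : x / c3 ≤ ((n:ℝ) / m) ^ (2/3:ℝ) := by
    have h6 : (x / c3) ^ (3/2:ℝ) ≤ (n:ℝ) / m := by
      rw [le_div_iff₀ hmP]
      refine le_trans ?_ hlm
      apply mul_le_mul_of_nonneg_right _ hmP.le
      rw [hlam]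
      have : (0:ℝ) ≤ 601 * a := by positivity
      linarith
    have h7 := Real.rpow_le_rpow (by positivity) h6 (by norm_num : (0:ℝ) ≤ 2/3)
    rw [← Real.rpow_mul (by positivity)] at h7
    norm_num at h7
    exact h7
  have h6 : x ≤ c3 * ((n:ℝ) / m) ^ (2/3:ℝ) := by
    rw [div_le_iff₀ hc30] at h5
    linarith
  have hnn : 0 < (n:ℝ) ^ (4/3:ℝ) := by positivity
  have h7 := mul_le_mul_of_nonneg_right h6 hnn.le
  have h8 : 25 * (c3 * ((n:ℝ) ^ (4/3:ℝ) * ((n:ℝ) / m) ^ (2/3:ℝ))) =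
      25 * (c3 * ((n:ℝ) / m) ^ (2/3:ℝ) * (n:ℝ) ^ (4/3:ℝ)) := by ring
  rw [h8] at h3
  linarith

end Run7.h537.AT
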