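import Pool.Agent.W424.OD.Cnt

/-! Moments from tails of the form `exp (- c x ^ 3)`. -/

set_option autoImplicit false

namespace Run7.h537.AT

open H974 H12S Finset H389NS H984P H984N H342P

theorem pow_le_fac {δ t : ℝ} (hδ : 0 < δ) (ht : 0 ≤ t) (k : ℕ) :
    t ^ k ≤ (δ ^ (-(1/3):ℝ)) ^ k * (((k.factorial : ℕ) : ℝ) ^ (1/3:ℝ) * Real.exp (δ * t ^ 3)) := by
  obtain ⟨s, hs⟩ : ∃ s : ℝ, s = δ ^ (1/3:ℝ) * t := ⟨_, rfl⟩
  have hs0 : 0 ≤ s := by rw [hs]; positivity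
  have hd3 : (δ ^ (1/3:ℝ)) ^ 3 = δ := by
    rw [← Real.rpow_natCast, ← Real.rpow_mul hδ.le]
    norm_num
  have hs3 : s ^ 3 = δ * t ^ 3 := by rw [hs, mul_pow, hd3]
  have h1 : (s ^ k) ^ 3 ≤ ((k.factorial : ℕ) : ℝ) * Real.exp (δ * t ^ 3) := by
    have h2 := Real.pow_div_factorial_le_exp (δ * t ^ 3) (by positivity) k
    rw [div_le_iff₀ (by positivity)] at h2
    calc (s ^ k) ^ 3 = (s ^ 3) ^ k := by rw [← pow_mul, ← pow_mul, mul_comm]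
      _ = (δ * t ^ 3) ^ k := by rw [hs3]
      _ ≤ _ := by linarith
  have h3 : s ^ k ≤ ((k.factorial : ℕ) : ℝ) ^ (1/3:ℝ) * Real.exp (δ * t ^ 3) := by
    have h4 := Real.rpow_le_rpow (by positivity) h1 (by norm_num : (0:ℝ) ≤ 1/3)
    have h5 : ((s ^ k) ^ 3) ^ (1/3:ℝ) = s ^ k := by
      rw [← Real.rpow_natCast, ← Real.rpow_mul (by positivity)]
      norm_num
    rw [h5, Real.mul_rpow (by positivity) (Real.exp_pos _).le] at h4
    refine h4.trans (mul_le_mul_of_nonneg_left ?_ (by positivity))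
    calc Real.exp (δ * t ^ 3) ^ (1/3:ℝ) ≤ Real.exp (δ * t ^ 3) ^ (1:ℝ) :=
          Real.rpow_le_rpow_of_exponent_le (Real.one_le_exp (by positivity)) (by norm_num)
      _ = _ := Real.rpow_one _
  have h6 : t ^ k = (δ ^ (-(1/3):ℝ)) ^ k * s ^ k := by
    rw [hs, ← mul_pow, ← mul_assoc, ← Real.rpow_add hδ]
    norm_num
  rw [h6]
  exact mul_le_mul_of_nonneg_left h3 (by positivity)

theorem mom_up {K c : ℝ} (hK : 0 < K) (hc : 0 < c) : ∃ C : ℝ, 0 < C ∧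
    ∀ (S : Finset Edg) (X : Finset Edg → ℝ), (∀ F, 0 ≤ X F) →
    (∀ x : ℝ, 0 ≤ x → PQ (1/2) S (fun F => x ≤ X F) ≤ K * Real.exp (-(c * x ^ 3))) →
    ∀ k : ℕ, Ex (fun _ => (1/2:ℝ)) S (fun F => X F ^ k) ≤
      C ^ k * ((k.factorial : ℕ) : ℝ) ^ (1/3:ℝ) := by
  have hok : Ok (fun _ : Edg => (1/2:ℝ)) := fun _ => ⟨by norm_num, by norm_num⟩
  obtain ⟨δ, hδ⟩ : ∃ δ : ℝ, δ = c / 16 := ⟨_, rfl⟩
  have hδ0 : 0 < δ := by rw [hδ]; positivity
  have hr1 : Real.exp (-δ) < 1 := Real.exp_lt_one_iff.2 (by linarith)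
  obtain ⟨R, hR⟩ : ∃ R : ℝ, R = (1 - Real.exp (-δ))⁻¹ := ⟨_, rfl⟩
  have hR0 : 0 < R := by rw [hR]; exact inv_pos.2 (by linarith)
  obtain ⟨C0, hC0⟩ : ∃ C0 : ℝ, C0 = 1 + K * Real.exp (2 * δ) * R := ⟨_, rfl⟩
  have hC01 : 1 ≤ C0 := by
    rw [hC0]
    have : 0 < K * Real.exp (2 * δ) * R := by positivity
    linarith
  refine ⟨C0 * δ ^ (-(1/3):ℝ), by positivity, fun S X hX hT k => ?_⟩
  rcases Nat.eq_zero_or_pos k with hk | hk
  · subst hk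
    simp only [pow_zero, Nat.factorial_zero, Nat.cast_one, Real.one_rpow, mul_one]
    rw [Ex_const]
  -- a bound of `X`
  obtain ⟨L, hL⟩ : ∃ L : ℕ, ∀ F, F ⊆ S → X F < L := by
    refine ⟨∑ F ∈ S.powerset, (⌊X F⌋₊ + 1), fun F hF => ?_⟩
    have h1 : ⌊X F⌋₊ + 1 ≤ ∑ F ∈ S.powerset, (⌊X F⌋₊ + 1) :=
      Finset.single_le_sum (f := fun F => ⌊X F⌋₊ + 1) (fun _ _ => Nat.zero_le _)
        (Finset.mem_powerset.2 hF)
    have h2 : X F < ⌊X F⌋₊ + 1 := Nat.lt_floor_add_one _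
    have h3 : ((⌊X F⌋₊ + 1 : ℕ) : ℝ) ≤ ((∑ F ∈ S.powerset, (⌊X F⌋₊ + 1) : ℕ) : ℝ) := by
      exact_mod_cast h1
    push_cast at h3 ⊢
    linarith
  have h1 : Ex (fun _ => (1/2:ℝ)) S (fun F => X F ^ k) ≤
      ∑ j ∈ Finset.range L, ((j:ℝ) + 1) ^ k * PQ (1/2) S (fun F => (j:ℝ) ≤ X F) := by
    have h2 : Ex (fun _ => (1/2:ℝ)) S (fun F => X F ^ k) ≤
        Ex (fun _ => (1/2:ℝ)) S (fun F => ∑ j ∈ Finset.range L,
          ((j:ℝ) + 1) ^ k * ind ((j:ℝ) ≤ X F)) := by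
      apply Ex_mono hok
      intro F hF
      have h3 : ⌊X F⌋₊ ∈ Finset.range L := by
        rw [Finset.mem_range]
        have h4 : (⌊X F⌋₊ : ℝ) ≤ X F := Nat.floor_le (hX F)
        have h5 := hL F hF
        have : (⌊X F⌋₊ : ℝ) < L := by linarith
        exact_mod_cast this
      have h4 := Finset.single_le_sum (f := fun j : ℕ => ((j:ℝ) + 1) ^ k * ind ((j:ℝ) ≤ X F))
        (fun j _ => mul_nonneg (by positivity) (ind_nonneg _)) h3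
      refine le_trans ?_ h4
      rw [ind_of (Nat.floor_le (hX F)), mul_one]
      exact pow_le_pow_left₀ (hX F) (Nat.lt_floor_add_one _).le k
    refine h2.trans (le_of_eq ?_)
    rw [Ex_sum]
    apply Finset.sum_congr rfl
    intro j _
    rw [Ex_mul_left]
    rfl
  refine h1.trans ?_
  have h2 : ∀ j ∈ Finset.range L, ((j:ℝ) + 1) ^ k * PQ (1/2) S (fun F => (j:ℝ) ≤ X F) ≤
      K * Real.exp (2 * δ) * ((δ ^ (-(1/3):ℝ)) ^ k * ((k.factorial : ℕ) : ℝ) ^ (1/3:ℝ)) *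
        Real.exp (-δ) ^ j := by
    intro j _
    have h3 := hT j (by positivity)
    have h4 := pow_le_fac hδ0 (by positivity : (0:ℝ) ≤ (j:ℝ) + 1) k
    have h5 : K * Real.exp (-(c * (j:ℝ) ^ 3)) ≤
        K * (Real.exp (2 * δ) * Real.exp (-(δ * ((j:ℝ) + 1) ^ 3)) * Real.exp (-δ) ^ j) := by
      apply mul_le_mul_of_nonneg_left _ hK.le
      rw [← Real.exp_nat_mul, ← Real.exp_add, ← Real.exp_add]
      apply Real.exp_le_exp.2
      have e : c = 16 * δ := by rw [hδ]; ring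
      rw [e]
      have hj : (j:ℝ) ≤ (j:ℝ) ^ 3 := by
        rcases Nat.eq_zero_or_pos j with h | h
        · rw [h]; norm_num
        · have : (1:ℝ) ≤ j := by exact_mod_cast h
          nlinarith [sq_nonneg ((j:ℝ)), mul_self_nonneg ((j:ℝ) - 1)]
      have hj2 : (j:ℝ) ^ 2 ≤ (j:ℝ) ^ 3 := by
        rcases Nat.eq_zero_or_pos j with h | h
        · rw [h]; norm_num
        · have : (1:ℝ) ≤ j := by exact_mod_cast h
          nlinarith [sq_nonneg ((j:ℝ))]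
      have h6 : 0 ≤ 16 * (j:ℝ) ^ 3 + 2 - ((j:ℝ) + 1) ^ 3 - j := by
        have : (0:ℝ) ≤ (j:ℝ) ^ 3 := by positivity
        nlinarith
      nlinarith
    have h6 := h3.trans h5
    have h7 : 0 ≤ PQ (1/2) S (fun F => (j:ℝ) ≤ X F) := Pr_nonneg hok _ _
    calc ((j:ℝ) + 1) ^ k * PQ (1/2) S (fun F => (j:ℝ) ≤ X F)
        ≤ ((δ ^ (-(1/3):ℝ)) ^ k * (((k.factorial : ℕ) : ℝ) ^ (1/3:ℝ) *
            Real.exp (δ * ((j:ℝ) + 1) ^ 3))) *
          (K * (Real.exp (2 * δ) * Real.exp (-(δ * ((j:ℝ) + 1) ^ 3)) * Real.exp (-δ) ^ j)) :=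
          mul_le_mul h4 h6 h7 (by positivity)
      _ = K * Real.exp (2 * δ) * ((δ ^ (-(1/3):ℝ)) ^ k * ((k.factorial : ℕ) : ℝ) ^ (1/3:ℝ)) *
          Real.exp (-δ) ^ j *
          (Real.exp (δ * ((j:ℝ) + 1) ^ 3) * Real.exp (-(δ * ((j:ℝ) + 1) ^ 3))) := by ring
      _ = _ := by
          rw [← Real.exp_add, add_neg_cancel, Real.exp_zero, mul_one]
  refine (Finset.sum_le_sum h2).trans ?_
  rw [← Finset.mul_sum]
  have h3 : ∑ j ∈ Finset.range L, Real.exp (-δ) ^ j ≤ R := by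
    have h4 := (summable_geometric_of_lt_one (Real.exp_pos _).le hr1).sum_le_tsum
      (Finset.range L) (fun _ _ => by positivity)
    rw [tsum_geometric_of_lt_one (Real.exp_pos _).le hr1] at h4
    rw [hR]
    exact h4
  have h4 : K * Real.exp (2 * δ) * R ≤ C0 ^ k := by
    have h5 : C0 ≤ C0 ^ k := le_self_pow₀ hC01 (by omega)
    rw [hC0] at h5 ⊢
    linarith
  have h5 : 0 ≤ (δ ^ (-(1/3):ℝ)) ^ k * ((k.factorial : ℕ) : ℝ) ^ (1/3:ℝ) := by positivity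
  calc K * Real.exp (2 * δ) * ((δ ^ (-(1/3):ℝ)) ^ k * ((k.factorial : ℕ) : ℝ) ^ (1/3:ℝ)) *
        ∑ j ∈ Finset.range L, Real.exp (-δ) ^ j
      ≤ K * Real.exp (2 * δ) * ((δ ^ (-(1/3):ℝ)) ^ k * ((k.factorial : ℕ) : ℝ) ^ (1/3:ℝ)) * R :=
        mul_le_mul_of_nonneg_left h3 (by positivity)
    _ = (K * Real.exp (2 * δ) * R) * ((δ ^ (-(1/3):ℝ)) ^ k * ((k.factorial : ℕ) : ℝ) ^ (1/3:ℝ)) := by
        ring
    _ ≤ C0 ^ k * ((δ ^ (-(1/3):ℝ)) ^ k * ((k.factorial : ℕ) : ℝ) ^ (1/3:ℝ)) :=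
        mul_le_mul_of_nonneg_right h4 h5
    _ = _ := by rw [mul_pow]; ring

theorem mom_low {C c : ℝ} (hC : 0 < C) (hc : 0 < c) : ∃ c' : ℝ, 0 < c' ∧
    ∀ (n : ℕ), 1 ≤ n → ∀ (S : Finset Edg) (X : Finset Edg → ℝ), (∀ F, 0 ≤ X F) →
    (∀ x : ℝ, 1 ≤ x → x ≤ c * (n:ℝ) ^ (2/3:ℝ) →
      Real.exp (-(C * x ^ 3)) ≤ PQ (1/2) S (fun F => x ≤ X F)) →
    ∀ k : ℕ, (k:ℝ) ≤ c' * (n:ℝ) ^ 2 → c' ^ k * ((k.factorial : ℕ) : ℝ) ^ (1/3:ℝ) ≤
      Ex (fun _ => (1/2:ℝ)) S (fun F => X F ^ k) := by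
  have hok : Ok (fun _ : Edg => (1/2:ℝ)) := fun _ => ⟨by norm_num, by norm_num⟩
  refine ⟨min (c ^ 3) (Real.exp (-C)), by positivity, fun n hn S X hX hT k hk => ?_⟩
  rcases Nat.eq_zero_or_pos k with hk0 | hk0
  · subst hk0
    simp only [pow_zero, Nat.factorial_zero, Nat.cast_one, Real.one_rpow, mul_one]
    rw [Ex_const]
  have hn0 : (0:ℝ) < n := by exact_mod_cast hn
  have hk1 : (1:ℝ) ≤ k := by exact_mod_cast hk0
  obtain ⟨x, hx⟩ : ∃ x : ℝ, x = (k:ℝ) ^ (1/3:ℝ) := ⟨_, rfl⟩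
  have hx1 : 1 ≤ x := by rw [hx]; exact Real.one_le_rpow hk1 (by norm_num)
  have hx3 : x ^ 3 = k := by
    rw [hx, ← Real.rpow_natCast, ← Real.rpow_mul (by positivity)]
    norm_num
  have hx2 : x ≤ c * (n:ℝ) ^ (2/3:ℝ) := by
    have h1 : (k:ℝ) ≤ c ^ 3 * (n:ℝ) ^ 2 :=
      hk.trans (mul_le_mul_of_nonneg_right (min_le_left _ _) (by positivity))
    have h2 := Real.rpow_le_rpow (by positivity) h1 (by norm_num : (0:ℝ) ≤ 1/3)
    rw [hx]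
    refine h2.trans (le_of_eq ?_)
    rw [Real.mul_rpow (by positivity) (by positivity)]
    have e1 : (c ^ 3) ^ (1/3:ℝ) = c := by
      rw [← Real.rpow_natCast, ← Real.rpow_mul hc.le]
      norm_num
    have e2 : ((n:ℝ) ^ 2) ^ (1/3:ℝ) = (n:ℝ) ^ (2/3:ℝ) := by
      rw [← Real.rpow_natCast, ← Real.rpow_mul hn0.le]
      norm_num
    rw [e1, e2]
  have h1 := hT x hx1 hx2
  have h2 : x ^ k * PQ (1/2) S (fun F => x ≤ X F) ≤ Ex (fun _ => (1/2:ℝ)) S (fun F => X F ^ k) := by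
    unfold PQ Pr
    rw [← Ex_mul_left]
    apply Ex_mono hok
    intro F _
    by_cases h : x ≤ X F
    · rw [ind_of h, mul_one]
      exact pow_le_pow_left₀ (by linarith) h k
    · rw [ind_not_of h, mul_zero]
      exact pow_nonneg (hX F) k
  refine le_trans ?_ h2
  have h3 : ((k.factorial : ℕ) : ℝ) ^ (1/3:ℝ) ≤ x ^ k := by
    have h4 : ((k.factorial : ℕ) : ℝ) ≤ (k:ℝ) ^ k := by exact_mod_cast Nat.factorial_le_pow k
    have h5 := Real.rpow_le_rpow (by positivity) h4 (by norm_num : (0:ℝ) ≤ 1/3)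
    refine h5.trans (le_of_eq ?_)
    rw [hx, ← Real.rpow_natCast, ← Real.rpow_natCast, ← Real.rpow_mul (by positivity),
      ← Real.rpow_mul (by positivity)]
    congr 1
    ring
  have h4 : (min (c ^ 3) (Real.exp (-C))) ^ k ≤ PQ (1/2) S (fun F => x ≤ X F) := by
    refine le_trans ?_ h1
    have e : Real.exp (-(C * x ^ 3)) = Real.exp (-C) ^ k := by
      rw [hx3, ← Real.exp_nat_mul]
      congr 1
      ring
    rw [e]
    exact pow_le_pow_left₀ (by positivity) (min_le_right _ _) k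
  rw [mul_comm]
  exact mul_le_mul h3 h4 (by positivity) (by positivity)

end Run7.h537.AT
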