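import Pool.Agent.W424.OD.Cnt
import Pool.Agent.TH992.T.Tail3
import Pool.Agent.W801.RS.T_LOWA

/-! The number of vertices with three arms: the family of local variables at all scales. -/

set_option autoImplicit false

namespace Run7.h537.AT

open H974 H12S Finset H389NS H984P H984N H342P
open Pool.Agent.W424.OD Pool.Agent.W801.RS.LOWA
open TH992.T (Bq mem_Bq card_Bq Nb Yb Fam RE_sub_RE)

theorem ok2 : Ok (fun _ : Edg => (1/2:ℝ)) := fun _ => ⟨by norm_num, by norm_num⟩

/-- the radius of the arms -/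
noncomputable def kk (n s : ℕ) (v : Vtx) : ℤ := min ((s / 8 : ℕ) : ℤ) (bdist n v)

open Classical in
/-- three arms -/
noncomputable def xs (n s : ℕ) (v : Vtx) (F : Finset Edg) : ℝ :=
  if v ∈ Plain.box n then ind (A3k v (kk n s v) (↑F : Set Edg)) else 0

theorem A3k_anti {v : Vtx} {k k' : ℤ} (h : k' ≤ k) {F : Set Edg} (hF : A3k v k F) : A3k v k' F := by
  unfold A3k at hF ⊢
  by_cases h0 : k' ≤ 0
  · exact Or.inl h0
  right
  rcases hF with hF | hF
  · omega
  · exact A3v_in (by omega) (by omega) hF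

theorem A3k_loc {v : Vtx} {k : ℤ} {F T : Finset Edg} (hT : ∀ e ∈ F, e ∈ blk v k.toNat → e ∈ T) :
    A3k v k (↑F : Set Edg) ↔ A3k v k (↑(F ∩ T) : Set Edg) := by
  unfold A3k
  rw [A3v_local v 1 k.toNat F, A3v_local v 1 k.toNat (F ∩ T)]
  have : F ∩ T ∩ (blk v k.toNat \ blk v 1) = F ∩ (blk v k.toNat \ blk v 1) := by
    ext e
    simp only [Finset.mem_inter, Finset.mem_sdiff]
    constructor
    · rintro ⟨⟨h1, _⟩, h3⟩
      exact ⟨h1, h3⟩
    · rintro ⟨h1, h3⟩
      exact ⟨⟨h1, hT e h1 h3.1⟩, h3⟩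
  rw [this]

/-- the bound of the one-dimensional sums -/
theorem ph_le {C : ℝ} (hC : 1 ≤ C) {x : ℤ} (hx : 0 ≤ x) :
    ph C (2/3) x ≤ 2 * C * ((x:ℝ) + 1) ^ (-(2/3):ℝ) := by
  have hx' : (0:ℝ) ≤ x := by exact_mod_cast hx
  unfold ph
  split_ifs with h
  · have : x = 0 := by omega
    rw [this]
    norm_num
    linarith
  · have h1 : (1:ℝ) ≤ x := by exact_mod_cast (by omega : (1:ℤ) ≤ x)
    have h2 : ((x:ℝ)) ^ (-(2/3):ℝ) ≤ 2 * ((x:ℝ) + 1) ^ (-(2/3):ℝ) := by
      have h3 : ((x:ℝ) + 1) / 2 ≤ x := by linarith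
      have h4 := Real.rpow_le_rpow_of_nonpos (by positivity) h3 (by norm_num : (-(2/3):ℝ) ≤ 0)
      refine h4.trans ?_
      rw [Real.div_rpow (by positivity) (by norm_num), div_eq_mul_inv, mul_comm,
        ← Real.rpow_neg (by norm_num)]
      apply mul_le_mul_of_nonneg_right _ (by positivity)
      calc (2:ℝ) ^ (-(-(2/3)):ℝ) ≤ (2:ℝ) ^ (1:ℝ) :=
            Real.rpow_le_rpow_of_exponent_le (by norm_num) (by norm_num)
        _ = 2 := by norm_num
    calc C * (x:ℝ) ^ (-(2/3):ℝ) ≤ C * (2 * ((x:ℝ) + 1) ^ (-(2/3):ℝ)) :=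
          mul_le_mul_of_nonneg_left h2 (by linarith)
      _ = _ := by ring

/-- the positive part -/
noncomputable def hp (C : ℝ) (x : ℤ) : ℝ := if 0 ≤ x then ph C (2/3) x else 0

theorem hp_nonneg {C : ℝ} (hC : 0 ≤ C) (x : ℤ) : 0 ≤ hp C x := by
  unfold hp
  split_ifs
  · exact ph_nonneg hC x
  · exact le_rfl

theorem sum_hp {C : ℝ} (hC : 1 ≤ C) (b : ℤ) (s : ℕ) :
    ∑ x ∈ Finset.Ico b (b + s), hp C x ≤ 6 * C * (s:ℝ) ^ (1/3:ℝ) := by
  have h1 : ∑ x ∈ Finset.Ico b (b + s), hp C x ≤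
      ∑ j ∈ Finset.range s, 2 * C * ((j + 1 : ℕ) : ℝ) ^ (-(2/3):ℝ) := by
    have e1 : Finset.Ico b (b + s) = (Finset.range s).image (fun j : ℕ => b + (j:ℤ)) := by
      ext x
      simp only [Finset.mem_Ico, Finset.mem_image, Finset.mem_range]
      constructor
      · rintro ⟨h1, h2⟩
        exact ⟨(x - b).toNat, by omega, by omega⟩
      · rintro ⟨j, hj, rfl⟩
        omega
    rw [e1, Finset.sum_image (by intro i _ j _ h; simpa using h)]
    by_cases hb : 0 ≤ b
    · apply Finset.sum_le_sum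
      intro j _
      unfold hp
      rw [if_pos (by positivity)]
      refine (ph_le hC (by positivity)).trans ?_
      apply mul_le_mul_of_nonneg_left _ (by linarith)
      apply Real.rpow_le_rpow_of_nonpos (by positivity) _ (by norm_num)
      push_cast
      have : (0:ℝ) ≤ b := by exact_mod_cast hb
      linarith
    · push Not at hb
      obtain ⟨t, ht⟩ : ∃ t : ℕ, (t:ℤ) = -b := ⟨(-b).toNat, by omega⟩
      -- only the terms `j ≥ t` contribute
      have h2 : ∑ j ∈ Finset.range s, hp C (b + (j:ℤ)) ≤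
          ∑ j ∈ Finset.range s, hp C (j:ℤ) := by
        have h3 : ∀ s : ℕ, ∑ j ∈ Finset.range s, hp C (b + (j:ℤ)) ≤
            ∑ j ∈ Finset.range (s - t), hp C (j:ℤ) := by
          intro s
          induction s with
          | zero => simp
          | succ s ih =>
            rw [Finset.sum_range_succ]
            by_cases hst : t ≤ s
            · have e2 : s + 1 - t = (s - t) + 1 := by omega
              rw [e2, Finset.sum_range_succ]
              have e3 : b + (s:ℤ) = ((s - t : ℕ) : ℤ) := by omega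
              rw [e3]
              linarith
            · have e3 : hp C (b + (s:ℤ)) = 0 := by
                unfold hp
                rw [if_neg (by omega)]
              have e4 : s + 1 - t = s - t := by omega
              rw [e3, e4, add_zero]
              exact ih
        refine (h3 s).trans ?_
        apply Finset.sum_le_sum_of_subset_of_nonneg
        · intro j hj
          rw [Finset.mem_range] at hj ⊢
          omega
        · intro j _ _
          exact hp_nonneg (by linarith) _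
      refine h2.trans (Finset.sum_le_sum fun j _ => ?_)
      unfold hp
      rw [if_pos (by positivity)]
      refine (ph_le hC (by positivity)).trans (le_of_eq ?_)
      push_cast
      ring
  refine h1.trans ?_
  rw [← Finset.mul_sum]
  have h2 := sum_rpow_le (s := 2/3) (by norm_num) (by norm_num) s
  have e1 : (s:ℝ) ^ (1 - 2/3:ℝ) / (1 - 2/3) = 3 * (s:ℝ) ^ (1/3:ℝ) := by
    rw [show (1 - 2/3:ℝ) = 1/3 by norm_num]
    ring
  rw [e1] at h2
  calc 2 * C * ∑ j ∈ Finset.range s, ((j + 1 : ℕ) : ℝ) ^ (-(2/3):ℝ)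
      ≤ 2 * C * (3 * (s:ℝ) ^ (1/3:ℝ)) := mul_le_mul_of_nonneg_left h2 (by linarith)
    _ = _ := by ring

theorem sum_hp' {C : ℝ} (hC : 1 ≤ C) (n b : ℤ) (s : ℕ) :
    ∑ x ∈ Finset.Ico b (b + s), hp C (n - x) ≤ 6 * C * (s:ℝ) ^ (1/3:ℝ) := by
  refine le_trans (le_of_eq ?_) (sum_hp hC (n - b - s + 1) s)
  apply Finset.sum_nbij' (fun x => n - x) (fun x => n - x)
  · intro x hx; rw [Finset.mem_Ico] at hx ⊢; omega
  · intro x hx; rw [Finset.mem_Ico] at hx ⊢; omega
  · intro x _; ring
  · intro x _; ring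
  · intro x _; rfl

theorem ph_side {C : ℝ} (hC : 1 ≤ C) {s : ℕ} (hs : 1 ≤ s) :
    ph C (2/3) ((s / 8 : ℕ) : ℤ) ≤ 16 * C * (s:ℝ) ^ (-(2/3):ℝ) := by
  have hs0 : (0:ℝ) < s := by exact_mod_cast hs
  have key : ∀ t : ℝ, 0 < t → (s:ℝ) / 16 ≤ t → t ^ (-(2/3):ℝ) ≤ 16 * (s:ℝ) ^ (-(2/3):ℝ) := by
    intro t _ ht
    have h4 := Real.rpow_le_rpow_of_nonpos (by positivity) ht (by norm_num : (-(2/3):ℝ) ≤ 0)
    refine h4.trans ?_
    rw [Real.div_rpow (by positivity) (by norm_num), div_eq_mul_inv, mul_comm,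
      ← Real.rpow_neg (by norm_num)]
    apply mul_le_mul_of_nonneg_right _ (by positivity)
    calc (16:ℝ) ^ (-(-(2/3)):ℝ) ≤ (16:ℝ) ^ (1:ℝ) :=
          Real.rpow_le_rpow_of_exponent_le (by norm_num) (by norm_num)
      _ = 16 := by norm_num
  unfold ph
  split_ifs with h
  · have h1 : s < 8 := by
      have : ((s / 8 : ℕ) : ℤ) ≤ 0 := h
      omega
    have h2 := key 1 one_pos (by
      have : (s:ℝ) < 8 := by exact_mod_cast h1
      linarith)
    rw [Real.one_rpow] at h2
    nlinarith [Real.rpow_pos_of_pos hs0 (-(2/3):ℝ)]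
  · have h1 : 8 ≤ s := by omega
    have h2 : s ≤ 16 * (s / 8) := by omega
    have h3 : (s:ℝ) / 16 ≤ ((s / 8 : ℕ) : ℝ) := by
      rw [div_le_iff₀ (by norm_num)]
      have : (s:ℝ) ≤ ((16 * (s / 8) : ℕ) : ℝ) := by exact_mod_cast h2
      push_cast at this
      linarith
    have h4 : (0:ℝ) < ((s / 8 : ℕ) : ℝ) := by
      have : 0 < s / 8 := by omega
      exact_mod_cast this
    have h5 := key _ h4 h3
    have e : (((s / 8 : ℕ) : ℤ) : ℝ) = ((s / 8 : ℕ) : ℝ) := by push_cast; rfl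
    rw [e]
    calc C * ((s / 8 : ℕ) : ℝ) ^ (-(2/3):ℝ) ≤ C * (16 * (s:ℝ) ^ (-(2/3):ℝ)) :=
          mul_le_mul_of_nonneg_left h5 (by linarith)
      _ = _ := by ring

/-- the family -/
theorem xs_fam {C : ℝ} (hC : 1 ≤ C) (hU : ∀ (c : ℤ × ℤ) (k : ℕ), 1 ≤ k → ∀ S : Finset Edg,
    blk c k ⊆ S → PQ (1/2) S (fun F => A3v c 1 k ↑F) ≤ C * (k : ℝ) ^ (-(2/3):ℝ)) (n : ℕ) :
    Fam (2/3) 1 (40 * C) (fun _ => 1/2) (RE 0 n 0 n) (xs n) := by
  classical
  refine ⟨ok2, ?_, ?_, ?_, ?_, ?_⟩
  · intro s v F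
    unfold xs
    split_ifs
    · exact ind_nonneg _
    · exact le_rfl
  · intro s v F
    unfold xs
    split_ifs
    · exact ind_le_one _
    · norm_num
  · intro s s' v F hs
    unfold xs
    split_ifs
    · apply ind_mono
      apply A3k_anti
      unfold kk
      have : s' / 8 ≤ s / 8 := Nat.div_le_div_right hs
      omega
    · exact le_rfl
  · intro s v F hF
    unfold xs
    split_ifs
    · have h := A3k_loc (v := v) (k := kk n s v) (F := F)
        (T := RE (v.1 - s) (v.1 + s) (v.2 - s) (v.2 + s) ∩ RE 0 n 0 n) (by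
          intro e he hb
          rw [Finset.mem_inter]
          refine ⟨?_, hF he⟩
          unfold blk at hb
          have hk : ((kk n s v).toNat : ℤ) ≤ s := by unfold kk; omega
          exact RE_sub_RE (by omega) (by omega) (by omega) (by omega) hb)
      rw [propext h]
    · rfl
  · intro s hs b c
    have hC0 : 0 ≤ C := by linarith
    have hs0 : (0:ℝ) < s := by exact_mod_cast hs
    have h1 : ∀ v ∈ Bq b c s, Ex (fun _ => (1/2:ℝ)) (RE 0 n 0 n) (xs n s v) ≤
        ph C (2/3) ((s / 8 : ℕ) : ℤ) + (hp C v.1 + hp C (n - v.1) + (hp C v.2 + hp C (n - v.2))) := by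
      intro v _
      have g1 := ph_nonneg (s := 2/3) hC0 ((s / 8 : ℕ) : ℤ)
      by_cases hv : v ∈ Plain.box n
      · have e1 : xs n s v = fun F : Finset Edg => ind (A3k v (kk n s v) (↑F : Set Edg)) := by
          funext F; unfold xs; rw [if_pos hv]
        rw [e1]
        have hv' : (0 ≤ v.1 ∧ v.1 ≤ n) ∧ (0 ≤ v.2 ∧ v.2 ≤ n) := by
          unfold Plain.box at hv
          rw [Finset.mem_product, Finset.mem_Icc, Finset.mem_Icc] at hv
          exact hv
        have g2 := ph_min (s := 2/3) hC0 n ((s / 8 : ℕ) : ℤ) v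
        have g3 : hp C v.1 = ph C (2/3) v.1 := by unfold hp; rw [if_pos hv'.1.1]
        have g4 : hp C (n - v.1) = ph C (2/3) (n - v.1) := by
          unfold hp; rw [if_pos (by omega)]
        have g5 : hp C v.2 = ph C (2/3) v.2 := by unfold hp; rw [if_pos hv'.2.1]
        have g6 : hp C (n - v.2) = ph C (2/3) (n - v.2) := by
          unfold hp; rw [if_pos (by omega)]
        have g7 : Ex (fun _ => (1/2:ℝ)) (RE 0 n 0 n)
            (fun F => ind (A3k v (kk n s v) (↑F : Set Edg))) ≤ ph C (2/3) (kk n s v) := by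
          unfold ph
          split_ifs with h
          · exact Pr_le_one ok2 _ (fun F => A3k v (kk n s v) (↑F : Set Edg))
          · have hkn : (((kk n s v).toNat : ℕ) : ℤ) = kk n s v := Int.toNat_of_nonneg (by omega)
            have h2 := hU v (kk n s v).toNat (by omega) (RE 0 n 0 n)
              (Pool.Agent.W424.OD.blk_sub (by rw [hkn]; exact min_le_right _ _))
            have h3 : ((((kk n s v).toNat : ℕ) : ℝ)) = ((kk n s v : ℤ) : ℝ) := by exact_mod_cast hkn
            rw [h3] at h2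
            refine le_trans ?_ h2
            refine Pr_mono ok2 ?_
            intro F _ hF
            rcases hF with hF | hF
            · exact absurd hF h
            · exact hF
        unfold kk at g7 ⊢
        linarith
      · have e1 : xs n s v = fun _ => (0:ℝ) := by
          funext F; unfold xs; rw [if_neg hv]
        rw [e1, Ex_const]
        have := hp_nonneg hC0 v.1
        have := hp_nonneg hC0 (n - v.1)
        have := hp_nonneg hC0 v.2
        have := hp_nonneg hC0 (n - v.2)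
        linarith
    refine (Finset.sum_le_sum h1).trans ?_
    rw [Finset.sum_add_distrib, Finset.sum_const, card_Bq, nsmul_eq_mul]
    have h2 := ph_side hC hs
    have h3 : ∑ v ∈ Bq b c s, (hp C v.1 + hp C (n - v.1) + (hp C v.2 + hp C (n - v.2))) ≤
        (s:ℝ) * (24 * C * (s:ℝ) ^ (1/3:ℝ)) := by
      unfold Bq
      rw [Finset.sum_product]
      have hcard : ∀ b : ℤ, (Finset.Ico b (b + s)).card = s := by
        intro b; rw [Int.card_Ico]; omega
      simp_rw [Finset.sum_add_distrib, Finset.sum_const, hcard, nsmul_eq_mul, ← Finset.mul_sum]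
      have k1 := sum_hp hC b s
      have k2 := sum_hp' hC n b s
      have k3 := sum_hp hC c s
      have k4 := sum_hp' hC n c s
      nlinarith
    have e1 : (s:ℝ) * s * (s:ℝ) ^ (-(2/3):ℝ) = (s:ℝ) ^ (2 - 2/3:ℝ) := by
      rw [show (s:ℝ) * s = (s:ℝ) ^ (2:ℝ) by rw [Real.rpow_two]; ring, ← Real.rpow_add hs0]
      norm_num
    have e2 : (s:ℝ) * (s:ℝ) ^ (1/3:ℝ) = (s:ℝ) ^ (2 - 2/3:ℝ) := by
      nth_rewrite 1 [← Real.rpow_one (s:ℝ)]
      rw [← Real.rpow_add hs0]
      norm_num
    have h4 : ((s * s : ℕ) : ℝ) * ph C (2/3) ((s / 8 : ℕ) : ℤ) ≤ 16 * C * (s:ℝ) ^ (2 - 2/3:ℝ) := by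
      rw [← e1, Nat.cast_mul]
      have := mul_le_mul_of_nonneg_left h2 (by positivity : (0:ℝ) ≤ (s:ℝ) * s)
      linarith
    rw [← e2] at h4 ⊢
    linarith

end Run7.h537.AT
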