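import Pool.Agent.Run7.h537.AT.Fam
import Pool.Agent.Run7.h561.TP.P_FINA

/-! The accessible vertices of a cluster of diameter about `M` lie in a box and have three arms. -/

set_option autoImplicit false

namespace Run7.h537.AT

open H974 H12S Finset H389NS H984P H984N H342P
open Pool.Agent.W424.OD
open TH992.T (Bq mem_Bq card_Bq Nb Yb Fam RE_sub_RE)
open Run7.h561 (Cu cluster_eq mem_box sd_le le_sd sd_lt lt_sd sd_comm sd_tri sd_nonneg)

/-- the cluster of a vertex of the box is in the box -/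
theorem Cu_box {n : ℕ} {F : Finset Edg} (hF : F ⊆ RE 0 n 0 n) {v : Vtx} (hv : v ∈ Plain.box n)
    {c : Vtx} (hc : c ∈ Cu (↑F : Set Edg) v) : c ∈ Plain.box n := by
  rw [mem_box] at hv ⊢
  exact Run7.h561.reach_mem (A := {v : Vtx | inR 0 n 0 n v})
    (fun e he => Run7.h561.mem_RE.1 (hF (by exact_mod_cast he))) hc hv

theorem acc_box {n : ℕ} {F : Finset Edg} (hF : F ⊆ RE 0 n 0 n) {v : Vtx} (hv : v ∈ Plain.box n)
    {M : ℕ} (hM : 1 ≤ M) {x y : Vtx} (hx : x ∈ Cu (↑F : Set Edg) v) (hy : y ∈ Cu (↑F : Set Edg) v)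
    (hxy : (M : ℤ) ≤ sd x y)
    (hD : ∀ z ∈ Cu (↑F : Set Edg) v, ∀ w ∈ Cu (↑F : Set Edg) v, sd z w < 2 * M) :
    ∃ i ∈ Finset.range (n / M + 1), ∃ j ∈ Finset.range (n / M + 1),
      ((accessible n F v).card : ℝ) ≤ Nb (xs n) (3 * M) ((M * i : ℕ) : ℤ) ((M * j : ℕ) : ℤ) F := by
  classical
  set C : Finset Vtx := (Plain.box n).filter (fun z => z ∈ Cu (↑F : Set Edg) v) with hC
  have hmem : ∀ z, z ∈ C ↔ z ∈ Cu (↑F : Set Edg) v := by
    intro z
    rw [hC, Finset.mem_filter]
    exact ⟨fun h => h.2, fun h => ⟨Cu_box hF hv h, h⟩⟩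
  have hne : C.Nonempty := ⟨x, (hmem x).2 hx⟩
  obtain ⟨p, hp, hp1⟩ := Finset.exists_min_image C (fun z => z.1) hne
  obtain ⟨q, hq, hq1⟩ := Finset.exists_min_image C (fun z => z.2) hne
  have hpb := mem_box.1 (Cu_box hF hv ((hmem p).1 hp))
  have hqb := mem_box.1 (Cu_box hF hv ((hmem q).1 hq))
  have hM' : (1 : ℤ) ≤ M := by exact_mod_cast hM
  have key : ∀ t : ℤ, 0 ≤ t → t ≤ n → ∃ i ∈ Finset.range (n / M + 1),
      ((M * i : ℕ) : ℤ) ≤ t ∧ t < ((M * i : ℕ) : ℤ) + M := by
    intro t h1 h2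
    have h3 : ((t.toNat : ℕ) : ℤ) = t := Int.toNat_of_nonneg h1
    refine ⟨t.toNat / M, ?_, ?_, ?_⟩
    · rw [Finset.mem_range]
      have : t.toNat / M ≤ n / M := Nat.div_le_div_right (by omega)
      omega
    · have := Nat.mul_div_le t.toNat M
      omega
    · have := Nat.lt_mul_div_succ t.toNat (show 0 < M by omega)
      rw [Nat.mul_succ] at this
      omega
  obtain ⟨i, hi, hi1, hi2⟩ := key p.1 hpb.1.1 hpb.1.2
  obtain ⟨j, hj, hj1, hj2⟩ := key q.2 hqb.2.1 hqb.2.2
  refine ⟨i, hi, j, hj, ?_⟩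
  have hsub : accessible n F v ⊆ Bq ((M * i : ℕ) : ℤ) ((M * j : ℕ) : ℤ) (3 * M) := by
    intro w hw
    unfold accessible at hw
    rw [Finset.mem_filter] at hw
    have hwc : w ∈ Cu (↑F : Set Edg) v := by rw [← cluster_eq]; exact hw.2.1
    have h1 := sd_lt.1 (hD w hwc p ((hmem p).1 hp))
    have h2 := sd_lt.1 (hD w hwc q ((hmem q).1 hq))
    have h3 := hp1 w ((hmem w).2 hwc)
    have h4 := hq1 w ((hmem w).2 hwc)
    rw [mem_Bq]
    push_cast at hi1 hi2 hj1 hj2 ⊢
    omega
  unfold Nb
  calc ((accessible n F v).card : ℝ) = ∑ w ∈ accessible n F v, (1:ℝ) := by simp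
    _ ≤ ∑ w ∈ accessible n F v, xs n (3 * M) w F := by
        apply Finset.sum_le_sum
        intro w hw
        unfold accessible at hw
        rw [Finset.mem_filter] at hw
        obtain ⟨hwb, hw2⟩ := hw
        unfold xs
        rw [if_pos hwb, ind_of]
        obtain ⟨hwc, e, p', q', he, hp', hq', hpq⟩ := hw2
        by_cases hk0 : kk n (3 * M) w ≤ 0
        · exact Or.inl hk0
        right
        set k : ℤ := kk n (3 * M) w with hk
        have hkm : k ≤ ((3 * M / 8 : ℕ) : ℤ) := min_le_left _ _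
        have hkb : k ≤ bdist n w := min_le_right _ _
        have hkn : ((k.toNat : ℕ) : ℤ) = k := Int.toNat_of_nonneg (by omega)
        have hwR : Reach (↑F : Set Edg) v w := (Plain.mem_cluster _ _ _).1 hwc
        -- a far point of the cluster
        obtain ⟨x', hx', hx'2⟩ : ∃ x', Reach (↑F : Set Edg) v x' ∧ k < sd x' w := by
          by_cases h1 : (M : ℤ) ≤ 2 * sd x w
          · refine ⟨x, hx, ?_⟩
            omega
          · refine ⟨y, hy, ?_⟩
            have h2 := sd_tri x w y
            rw [sd_comm w y] at h2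
            omega
        have hww : BX w 1 w := by
          unfold BX inR
          omega
        have hpw : BX w 1 p' := by
          obtain ⟨x, y, t⟩ := e
          obtain ⟨w1, w2⟩ := w
          obtain ⟨p1, p2⟩ := p'
          unfold BX inR
          unfold Plain.fst Plain.snd at he
          cases t
          · simp only [Bool.false_eq_true, if_false, Prod.mk.injEq] at he
            simp only [Nat.cast_one]
            omega
          · simp only [if_true, Prod.mk.injEq] at he
            simp only [Nat.cast_one]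
            omega
        refine A3v_of (v := v) (x := w) (x' := x') (w := p') (w' := q') (by omega) hww hwR ?_ hx'
          hpw ?_ (avoid_reach hpq)
        · rw [lt_sd] at hx'2
          unfold BX inR
          omega
        · intro hqb
          apply hq'
          rw [mem_box]
          unfold BX inR at hqb
          unfold bdist at hkb
          omega
    _ ≤ _ := by
        apply Finset.sum_le_sum_of_subset_of_nonneg hsub
        intro w _ _
        unfold xs
        split_ifs
        · exact ind_nonneg _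
        · exact le_rfl

/-- the cluster of a vertex outside of the box has no accessible vertices -/
theorem acc_out {n : ℕ} {F : Finset Edg} (hF : F ⊆ RE 0 n 0 n) {v : Vtx} (hv : v ∉ Plain.box n) :
    accessible n F v = ∅ := by
  classical
  rw [Finset.eq_empty_iff_forall_notMem]
  intro w hw
  unfold accessible at hw
  rw [Finset.mem_filter] at hw
  have hwR : Reach (↑F : Set Edg) v w := (Plain.mem_cluster _ _ _).1 hw.2.1
  apply hv
  have h1 : v ∈ Cu (↑F : Set Edg) w := Reach.symm hwR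
  exact Cu_box hF hw.1 h1

/-- the diameter -/
theorem diam_cases {n : ℕ} {F : Finset Edg} (hF : F ⊆ RE 0 n 0 n) {v : Vtx}
    (hv : v ∈ Plain.box n) : (accessible n F v).card ≤ 1 ∨
      ∃ k ∈ Finset.range (Nat.log 2 n + 1), ∃ i ∈ Finset.range (n / 2 ^ k + 1),
        ∃ j ∈ Finset.range (n / 2 ^ k + 1), ((accessible n F v).card : ℝ) ≤
          Nb (xs n) (3 * 2 ^ k) ((2 ^ k * i : ℕ) : ℤ) ((2 ^ k * j : ℕ) : ℤ) F := by
  classical
  set C : Finset Vtx := (Plain.box n).filter (fun z => z ∈ Cu (↑F : Set Edg) v) with hC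
  have hmem : ∀ z, z ∈ C ↔ z ∈ Cu (↑F : Set Edg) v := by
    intro z
    rw [hC, Finset.mem_filter]
    exact ⟨fun h => h.2, fun h => ⟨Cu_box hF hv h, h⟩⟩
  have hvv : v ∈ Cu (↑F : Set Edg) v := Reach.refl _ _
  have hne : (C ×ˢ C).Nonempty := ⟨(v, v), Finset.mem_product.2 ⟨(hmem v).2 hvv, (hmem v).2 hvv⟩⟩
  obtain ⟨⟨x, y⟩, hxy, hmax⟩ := Finset.exists_max_image (C ×ˢ C) (fun z => sd z.1 z.2) hne
  rw [Finset.mem_product] at hxy
  simp only at hxy hmax
  by_cases h0 : sd x y ≤ 0
  · left
    rw [Finset.card_le_one]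
    intro a ha b hb
    unfold accessible at ha hb
    rw [Finset.mem_filter] at ha hb
    have ha' : a ∈ Cu (↑F : Set Edg) v := by rw [← cluster_eq]; exact ha.2.1
    have hb' : b ∈ Cu (↑F : Set Edg) v := by rw [← cluster_eq]; exact hb.2.1
    have h1 := hmax (a, b) (Finset.mem_product.2 ⟨(hmem a).2 ha', (hmem b).2 hb'⟩)
    simp only at h1
    have h2 := sd_le.1 (h1.trans h0)
    ext <;> omega
  · right
    push Not at h0
    obtain ⟨D, hD⟩ : ∃ D : ℕ, (D : ℤ) = sd x y := ⟨(sd x y).toNat, Int.toNat_of_nonneg (by omega)⟩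
    have hD1 : D ≠ 0 := by
      rintro rfl
      simp at hD
      omega
    have hxb := mem_box.1 (Cu_box hF hv ((hmem x).1 hxy.1))
    have hyb := mem_box.1 (Cu_box hF hv ((hmem y).1 hxy.2))
    have hDn : D ≤ n := by
      have : sd x y ≤ n := by rw [sd_le]; omega
      omega
    have h1 : 2 ^ Nat.log 2 D ≤ D := Nat.pow_log_le_self 2 hD1
    have h2 : D < 2 ^ (Nat.log 2 D + 1) := Nat.lt_pow_succ_log_self (by norm_num) D
    refine ⟨Nat.log 2 D, ?_, ?_⟩
    · rw [Finset.mem_range]
      have := Nat.log_mono_right (b := 2) hDn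
      omega
    have h3 := acc_box hF hv (M := 2 ^ Nat.log 2 D) (Nat.one_le_two_pow) ((hmem x).1 hxy.1)
      ((hmem y).1 hxy.2) (by rw [← hD]; exact_mod_cast h1) (by
        intro z hz w hw
        have h4 := hmax (z, w) (Finset.mem_product.2 ⟨(hmem z).2 hz, (hmem w).2 hw⟩)
        simp only at h4
        rw [← hD] at h4
        have h5 : (D : ℤ) < 2 * ((2 ^ Nat.log 2 D : ℕ) : ℤ) := by
          rw [pow_succ] at h2
          have : D < 2 * 2 ^ Nat.log 2 D := by omega
          exact_mod_cast this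
        omega)
    exact h3

end Run7.h537.AT
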