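import Pool.Agent.Run7.h537.AT.LProb
import Pool.Agent.Run7.h537.AT.UDet

/-! The comb has many accessible vertices. -/

set_option autoImplicit false

namespace Run7.h537.AT

open H974 H12S Finset H984P H984N H342P
open Run7.h561 Run7.h561.SURG

/-- A gadget which is connected to the cluster and whose exit leads out of the box along the slit. -/
theorem acc_gad {t : ℝ} {M B a m : ℕ} {p c0 E0 : ℝ} {G : Finset Edg → Prop}
    (hG : Gad t M B a m p c0 E0 G) {n : ℕ} {F : Finset Edg} (hF : F ⊆ RE 0 n 0 n) {c z : Vtx}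
    (hm : 1 ≤ m) (hz0 : z ∈ Plain.box n)
    (hGF : G ((trl (-c.1) (-c.2)).mp F)) (hq : ∃ x ∈ ctr (tr c (q1 a m)) m, x ∈ Cu (↑F : Set Edg) z)
    (hfar : ∃ y, (200 * (a * m) : ℤ) ≤ sd y c ∧ y ∈ Cu (↑F : Set Edg) z)
    (hc : -1 ≤ c.2 - 136 * (a * m))
    (hslit : ∀ s : ℤ, 0 ≤ s → s ≤ c.2 - 136 * (a * m) → (c.1, s) ∉ Cu (↑F : Set Edg) z) :
    ∃ V : Finset Vtx, V ⊆ ctr (tr c (v0 a m)) m ∧ c0 * (m : ℝ) ^ (4 / 3 : ℝ) ≤ V.card ∧
      ∀ v ∈ V, ∃ w' ∈ Pool.Agent.W424.OD.accessible n F z, sd v w' ≤ 2 := by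
  classical
  obtain ⟨x, hx1, hx2⟩ := hq
  obtain ⟨y, hy2, hy1⟩ := hfar
  set U : ℤ := (a : ℤ) * m with hU
  set C : Set Vtx := Cu (↑F : Set Edg) z with hC
  have hbox : ∀ c ∈ C, c ∈ Plain.box n := fun c hc => Cu_box hF hz0 hc
  have hz2 : ∀ s : ℤ, s ≤ c.2 - 136 * U → (c.1, s) ∉ C := by
    intro s hs h
    rcases lt_or_ge s 0 with h1 | h1
    · have := mem_box.1 (hbox _ h)
      simp only at this
      omega
    · exact hslit s h1 hs h
  set F0 : Finset Edg := (trl (-c.1) (-c.2)).mp F with hF0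
  have hsh : ∀ {a b : Vtx}, Reach (↑F : Set Edg) a b →
      Reach (↑F0 : Set Edg) (a.1 - c.1, a.2 - c.2) (b.1 - c.1, b.2 - c.2) := fun {a b} h1 => by
    have := (BS_reach_trl (-c.1) (-c.2) (F := F) (u := a) (v := b)).2 h1
    simpa [sub_eq_add_neg] using this
  have hush : ∀ {a b : Vtx}, Reach (↑F0 : Set Edg) a b →
      Reach (↑F : Set Edg) (a.1 + c.1, a.2 + c.2) (b.1 + c.1, b.2 + c.2) := fun {a b} h1 => by
    apply (BS_reach_trl (-c.1) (-c.2) (F := F) (u := (a.1 + c.1, a.2 + c.2))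
      (v := (b.1 + c.1, b.2 + c.2))).1
    simpa using h1
  set u0 : Vtx := (z.1 - c.1, z.2 - c.2) with hu0
  obtain ⟨V, hV1, hV2, -, hV3⟩ := hG.det F0 u0 hGF
    ⟨(x.1 - c.1, x.2 - c.2), by
      rw [Run7.h561.mem_ctr, sd_le] at hx1 ⊢
      simp only [tr] at hx1 ⊢
      omega, hsh hx2⟩
    ⟨(y.1 - c.1, y.2 - c.2), by
      rw [far_iff, le_sd]
      rw [le_sd] at hy2
      simp only
      push_cast
      omega, hsh hy1⟩
  have hCeq : ∀ d : Vtx, d ∈ Cu (↑F0 : Set Edg) u0 ↔ (d.1 + c.1, d.2 + c.2) ∈ C := by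
    intro d
    constructor
    · intro hc
      have h1 := hush hc
      have h2 : Reach (↑F : Set Edg) z (d.1 + c.1, d.2 + c.2) := by simpa [hu0] using h1
      exact h2
    · intro hc
      have h1 := hsh hc
      have h2 : Reach (↑F0 : Set Edg) u0 d := by simpa [hu0] using h1
      exact h2
  -- every vertex of `V` is near an accessible vertex
  have key : ∀ v ∈ V, ∃ w' ∈ Pool.Agent.W424.OD.accessible n F z,
      sd (v.1 + c.1, v.2 + c.2) w' ≤ 2 := by
    intro v hv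
    obtain ⟨k1, x', k2, k3⟩ := hV3 v hv
    rw [mem_bdB] at k2
    have k4 : Reach {e | src e ∉ Cu (↑F0 : Set Edg) u0 ∧ tgt e ∉ Cu (↑F0 : Set Edg) u0} x' (s0 a m) := by
      refine k3.mono ?_
      rintro e ⟨h1, h2⟩
      exact ⟨cln_off hm h1, cln_off hm h2⟩
    have k5 : Reach {e | src e ∉ C ∧ tgt e ∉ C} (x'.1 + c.1, x'.2 + c.2)
        ((s0 a m).1 + c.1, (s0 a m).2 + c.2) := by
      refine reach_trans_set (P := fun d => d ∉ Cu (↑F0 : Set Edg) u0) (Q := fun d => d ∉ C)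
        c ?_ k4
      intro d hd hd2
      exact hd ((hCeq d).2 hd2)
    have hx'C : (x'.1 + c.1, x'.2 + c.2) ∉ C := by
      rcases reach_cases k5 with h1 | ⟨w', ⟨e, ⟨h1, h2⟩, h3⟩, -⟩
      · rw [h1]
        intro h2
        have := hz2 ((s0 a m).2 + c.2) (by simp only [s0]; omega)
        apply this
        simpa [s0] using h2
      · rcases h3 with ⟨h3, -⟩ | ⟨-, h3⟩
        · rw [← h3]; exact h1
        · rw [← h3]; exact h2
    have k6 : Reach {e | src e ∉ C ∧ tgt e ∉ C} ((s0 a m).1 + c.1, (s0 a m).2 + c.2)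
        (c.1, -1) := by
      have e1 : ((s0 a m).1 + c.1, (s0 a m).2 + c.2) = (c.1, c.2 - 136 * U) := by
        simp only [s0, zero_add]
        ext
        · rfl
        · simp only; rw [hU]; ring
      rw [e1]
      refine vseg (P := fun d => d ∉ C) fun s s1 s2 => ?_
      have l2 := le_max_iff.1 s2
      refine hz2 s ?_
      rcases l2 with l2 | l2
      · omega
      · omega
    refine acc_near (x := (x'.1 + c.1, x'.2 + c.2)) (q := (c.1, -1))
      hbox ((hCeq v).1 k1) ?_ hx'C ?_ (k5.trans k6)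
    · have := sd_le.1 k2.le
      rw [sd_le]
      simp only
      push_cast at this
      omega
    · rw [mem_box]
      simp only
      rintro ⟨-, h1, -⟩
      omega
  refine ⟨V.image (fun v : Vtx => (v.1 + c.1, v.2 + c.2)), ?_, ?_, ?_⟩
  · intro w hw
    rw [Finset.mem_image] at hw
    obtain ⟨v, hv, rfl⟩ := hw
    have h1 := hV1 hv
    rw [Run7.h561.mem_ctr, sd_le] at h1 ⊢
    simp only [tr]
    omega
  · rw [Finset.card_image_of_injective]
    · exact hV2
    · intro v1 v2 h12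
      simp only [Prod.mk.injEq] at h12
      ext
      · omega
      · omega
  · intro w hw
    rw [Finset.mem_image] at hw
    obtain ⟨v, hv, rfl⟩ := hw
    exact key v hv

theorem ctr2 (w : Vtx) : (ctr w 2).card = 25 := by
  unfold ctr
  rw [Finset.card_product, Int.card_Icc, Int.card_Icc]
  have e1 : (w.1 + (2 : ℕ) + 1 - (w.1 - (2 : ℕ))).toNat = 5 := by
    rw [show w.1 + (2 : ℕ) + 1 - (w.1 - (2 : ℕ)) = 5 by push_cast; ring]; rfl
  have e2 : (w.2 + (2 : ℕ) + 1 - (w.2 - (2 : ℕ))).toNat = 5 := by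
    rw [show w.2 + (2 : ℕ) + 1 - (w.2 - (2 : ℕ)) = 5 by push_cast; ring]; rfl
  rw [e1, e2]

theorem tr0 (q : ℤ × ℤ) : tr (0, 0) q = q := by
  unfold tr
  simp

/-- The line vertex of a hub. -/
theorem Gd_line {m : ℕ} {F : Set Edg} {u : Vtx} {q : ℤ × ℤ} (h : Gd (0, 0) m F u q) :
    ∃ s : ℤ, 2 * (m * q.2) + m ≤ s ∧ s ≤ 2 * (m * q.2) + 3 * m ∧ (2 * (m * q.1), s) ∈ Cu F u := by
  obtain ⟨z, z1, z2⟩ := h
  rw [tr0] at z1
  obtain ⟨s, s1, s2, s3⟩ := z1.line
  simp only [Run7.h561.cell] at s1 s2 s3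
  exact ⟨s, s1, s2, Reach.trans z2 (Reach.symm s3)⟩

theorem comb_det {t : ℝ} {M B a b m I J n : ℕ} {p c0 E0 : ℝ} {G : Finset Edg → Prop}
    (hG : Gad t M B a m p c0 E0 G) (hab : a = 2 * b) (ha : 24 ≤ a) (hm : 1 ≤ m) (hI : 1 ≤ I)
    (hJ : 1 ≤ J) (hn1 : 256 * (I * (a * m)) + a * m ≤ n)
    (hn2 : 32 * (J * (a * m)) + 25 * (a * m) ≤ n)
    (hn3 : n + 64 * (a * m) ≤ 1024 * (I * (a * m))) {F : Finset Edg} (hF : F ⊆ RE 0 n 0 n)
    (hcomb : Comb a b m I J G F) : ∃ u ∈ Plain.box n,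
      ((I * J : ℕ) : ℝ) * (c0 * (m : ℝ) ^ (4 / 3 : ℝ)) ≤
        25 * ((Pool.Agent.W424.OD.accessible n F u).card : ℝ) ∧
      ∃ z ∈ Cu (↑F : Set Edg) u, ∃ z' ∈ Cu (↑F : Set Edg) u,
        (n : ℤ) ^ 2 ≤ 16 * Plain.sqDist z z' := by
  classical
  obtain ⟨hO, hD, hM⟩ := hcomb
  have ham : 24 * m ≤ a * m := Nat.mul_le_mul_right m ha
  have hmU : 24 * (m : ℤ) ≤ (a : ℤ) * m := by exact_mod_cast ham
  have hm' : (1 : ℤ) ≤ m := by exact_mod_cast hm
  have hm0 : (0 : ℤ) ≤ m := by omega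
  have hab' : (a : ℤ) = 2 * b := by exact_mod_cast hab
  have hb0 : (0 : ℤ) ≤ b := by positivity
  zify at hn1 hn2 hn3
  set U : ℤ := (a : ℤ) * m with hU
  have hbm : (m : ℤ) * b * 2 = U := by rw [hU, hab']; ring
  have hcz : ∀ q, OA a m I J (Run7.h561.cell m q) →
      ∃ z, Cz (tr (0, 0) (Run7.h561.cell m q)) m (↑F : Set Edg) z := by
    intro q hq
    rw [tr0]
    exact t_CZ _ _ F hm (hO q ((mem_OC hab hm hJ ham).2 hq))
  set H : ℤ := (24 + 32 * (J : ℤ)) * b with hH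
  have hmH : 2 * ((m : ℤ) * H) = 24 * U + 32 * (J * U) := by
    rw [hH, ← hbm]; ring
  have hI16 : 16 * (b : ℤ) ≤ 256 * ((I : ℤ) * b) := by
    have : (1 : ℤ) * b ≤ I * b := mul_le_mul_of_nonneg_right (by exact_mod_cast hI) hb0
    omega
  -- the first hub
  obtain ⟨z0, hz0⟩ := hcz (16 * b, H) (oa_spine hab le_rfl hI16)
  obtain ⟨s0', l1, l2, l3⟩ := hz0.line
  rw [tr0] at l1 l2 l3
  simp only [Run7.h561.cell] at l1 l2 l3
  set u : Vtx := (2 * (m * (16 * b)), s0') with hu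
  have e16 : 2 * ((m : ℤ) * (16 * b)) = 16 * U := by rw [← hbm]; ring
  have IU : U ≤ I * U := by
    have : (1 : ℤ) * U ≤ I * U := mul_le_mul_of_nonneg_right (by exact_mod_cast hI) (by positivity)
    omega
  have JU : U ≤ J * U := by
    have : (1 : ℤ) * U ≤ J * U := mul_le_mul_of_nonneg_right (by exact_mod_cast hJ) (by positivity)
    omega
  have hub : u ∈ Plain.box n := by
    rw [mem_box, hu]
    simp only
    rw [e16]
    refine ⟨⟨?_, ?_⟩, ?_, ?_⟩ <;> omega
  have g0 : Gd (0, 0) m (↑F : Set Edg) u (16 * b, H) := ⟨z0, hz0, l3⟩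
  have gs : ∀ k : ℤ, 16 * (b : ℤ) ≤ k → k ≤ 256 * ((I : ℤ) * b) →
      Gd (0, 0) m (↑F : Set Edg) u (k, H) := by
    intro k k1 k2
    refine Gd_hor g0 fun j j1 j2 => hcz _ (oa_spine hab ?_ ?_)
    · have := min_le_iff.1 j1; omega
    · have := le_max_iff.1 j2; omega
  have sI : ∀ s : ℕ, s < I → (s : ℤ) * b + b ≤ I * b := by
    intro s hs
    have : ((s : ℤ) + 1) * b ≤ I * b := mul_le_mul_of_nonneg_right (by exact_mod_cast hs) hb0
    linarith
  have sJ : ∀ s : ℕ, s < J → (s : ℤ) * b + b ≤ J * b := by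
    intro s hs
    have : ((s : ℤ) + 1) * b ≤ J * b := mul_le_mul_of_nonneg_right (by exact_mod_cast hs) hb0
    linarith
  have hH' : H = 24 * b + 32 * ((J : ℤ) * b) := by rw [hH]; ring
  have gt : ∀ s : ℕ, s < I → ∀ k : ℤ, 48 * (b : ℤ) ≤ k → k ≤ H →
      Gd (0, 0) m (↑F : Set Edg) u ((256 * (s : ℤ) + 16) * b, k) := by
    intro s hs k k1 k2
    have h1 := sI s hs
    have h0 : 0 ≤ (s : ℤ) * b := by positivity
    have e1 : (256 * (s : ℤ) + 16) * b = 256 * (s * b) + 16 * b := by ring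
    have h2 := gs ((256 * (s : ℤ) + 16) * b) (by rw [e1]; omega) (by rw [e1]; omega)
    refine Gd_ver h2 fun j j1 j2 => hcz _ (oa_tooth hab hs ?_ ?_)
    · have h3 : (1 : ℤ) * b ≤ J * b := mul_le_mul_of_nonneg_right (by exact_mod_cast hJ) hb0
      have := min_le_iff.1 j1
      omega
    · have := le_max_iff.1 j2; omega
  have gc : ∀ s t : ℕ, s < I → t < J →
      Gd (0, 0) m (↑F : Set Edg) u ((256 * (s : ℤ) + 128) * b, (48 + 32 * (t : ℤ)) * b) := by
    intro s t hs ht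
    have h1 := sJ t ht
    have h0 : 0 ≤ (t : ℤ) * b := by positivity
    have e1 : (48 + 32 * (t : ℤ)) * b = 48 * b + 32 * (t * b) := by ring
    have h2 := gt s hs ((48 + 32 * (t : ℤ)) * b) (by rw [e1]; omega) (by rw [e1, hH']; omega)
    have e2 : (256 * (s : ℤ) + 16) * b = 256 * (s * b) + 16 * b := by ring
    have e3 : (256 * (s : ℤ) + 128) * b = 256 * (s * b) + 128 * b := by ring
    refine Gd_hor h2 fun j j1 j2 => hcz _ (oa_conn hab hs ht ?_ ?_)
    · have := min_le_iff.1 j1; omega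
    · have := le_max_iff.1 j2; omega
  have gd : ∀ s t : ℕ, s < I → t < J →
      Gd (0, 0) m (↑F : Set Edg) u ((256 * (s : ℤ) + 128) * b, (39 + 32 * (t : ℤ)) * b + 1) := by
    intro s t hs ht
    have h2 := gc s t hs ht
    have e1 : (48 + 32 * (t : ℤ)) * b = 48 * b + 32 * (t * b) := by ring
    have e2 : (39 + 32 * (t : ℤ)) * b = 39 * b + 32 * (t * b) := by ring
    refine Gd_ver h2 fun j j1 j2 => hcz _ (oa_down hab hs ht ?_ ?_)
    · have := min_le_iff.1 j1; omega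
    · have := le_max_iff.1 j2; omega
  -- the cluster avoids the slits
  have hslit : ∀ s : ℕ, s < I → ∀ y : ℤ, 0 ≤ y → y + 8 * U ≤ 32 * (J * U) →
      (256 * ((s : ℤ) * U) + 256 * U, y) ∉ Cu (↑F : Set Edg) u := by
    intro s hs y hy1 hy2 hcon
    set j : ℤ := y / (2 * m) with hj
    have k1 := Int.emod_add_mul_ediv y (2 * m)
    have k2 := Int.emod_nonneg y (show (2 * m : ℤ) ≠ 0 by omega)
    have k3 := Int.emod_lt_of_pos y (show (0 : ℤ) < 2 * m by omega)
    have k4 : 0 ≤ j := Int.ediv_nonneg hy1 (by omega)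
    rw [← hj] at k1
    have e2 : (2 * m : ℤ) * j = 2 * (m * j) := by ring
    rw [e2] at k1
    have ex : 2 * ((m : ℤ) * (256 * ((s : ℤ) * b) + 256 * b)) = 256 * ((s : ℤ) * U) + 256 * U := by
      rw [← hbm]; ring
    have hq : (256 * ((s : ℤ) * b) + 256 * b, j) ∈ CC a b m I J := by
      rw [mem_CC hab hm]
      refine ⟨s, hs, ?_, ?_, ?_⟩
      · simp only [Run7.h561.cell]
        exact ex
      · simp only [Run7.h561.cell]
        positivity
      · simp only [Run7.h561.cell]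
        rw [← hU]
        omega
    have hb := hD _ hq
    refine bsd_avoid hb (x := (256 * ((s : ℤ) * U) + 256 * U, y)) (y := u) ?_ ?_ (Reach.symm hcon)
    · rw [sd_le]; simp only [Run7.h561.cell]; rw [ex]; push_cast; omega
    · rw [le_sd, hu]; simp only [Run7.h561.cell]; rw [ex]; push_cast
      omega
  -- the gadgets
  have hgad : ∀ g ∈ Finset.range I ×ˢ Finset.range J, ∃ V : Finset Vtx,
      V ⊆ ctr (tr (cen a m g) (v0 a m)) m ∧ c0 * (m : ℝ) ^ (4 / 3 : ℝ) ≤ V.card ∧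
      ∀ v ∈ V, ∃ w' ∈ Pool.Agent.W424.OD.accessible n F u, sd v w' ≤ 2 := by
    intro g hg
    have hGF := hM g hg
    rw [Finset.mem_product, Finset.mem_range, Finset.mem_range] at hg
    have h1 := mulU a m hg.1
    have h2 := mulU a m hg.2
    have h3 := mulU0 a m g.1
    have h4 := mulU0 a m g.2
    rw [← hU] at h1 h2 h3 h4
    refine acc_gad hG hF hm hub hGF ?_ ?_ ?_ ?_
    · obtain ⟨z, z1, z2⟩ := gd g.1 g.2 hg.1 hg.2
      rw [tr0] at z1
      obtain ⟨x, x1, y, y1, k1, k2⟩ := z1.nbr (tr (cen a m g) (q1 a m)) (by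
        right; right; right
        simp only [tr, Run7.h561.cell, q1, cen]
        ext
        · simp only
          rw [← hU, ← hbm]
          ring
        · simp only
          rw [← hU, ← hbm]
          ring)
      exact ⟨x, x1, Reach.trans z2 (Reach.symm k2)⟩
    · have h5 : 48 * (b : ℤ) ≤ H := by
        have h3 : (1 : ℤ) * b ≤ J * b := mul_le_mul_of_nonneg_right (by exact_mod_cast hJ) hb0
        omega
      obtain ⟨s, s1, s2, s3⟩ := Gd_line (gt g.1 hg.1 H h5 le_rfl)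
      refine ⟨_, ?_, s3⟩
      rw [le_sd]
      simp only [cen]
      rw [← hU]
      have e1 : 2 * ((m : ℤ) * ((256 * (g.1 : ℤ) + 16) * b)) = 256 * ((g.1 : ℤ) * U) + 16 * U := by
        rw [← hbm]; ring
      rw [e1]
      omega
    · simp only [cen]
      rw [← hU]
      omega
    · intro s s1 s2
      simp only [cen] at s2 ⊢
      rw [← hU] at s2 ⊢
      exact hslit g.1 hg.1 s s1 (by omega)
  choose! V hV1 hV2 hV3 using hgad
  refine ⟨u, hub, ?_, ?_⟩
  · -- counting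
    set Acc' := Pool.Agent.W424.OD.accessible n F u with hAcc'
    have hsub : (Finset.range I ×ˢ Finset.range J).biUnion V ⊆ Acc'.biUnion (fun w => ctr w 2) := by
      intro v hv
      rw [Finset.mem_biUnion] at hv
      obtain ⟨g, hg, hv⟩ := hv
      obtain ⟨w', h1, h2⟩ := hV3 g hg v hv
      rw [Finset.mem_biUnion]
      exact ⟨w', h1, Run7.h561.mem_ctr.2 h2⟩
    have hcard : ((Finset.range I ×ˢ Finset.range J).biUnion V).card ≤ 25 * Acc'.card := by
      refine (Finset.card_le_card hsub).trans (Finset.card_biUnion_le.trans ?_)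
      simp only [ctr2, Finset.sum_const, smul_eq_mul]
      rw [mul_comm]
    have hdisj : ((Finset.range I ×ˢ Finset.range J).biUnion V).card =
        ∑ g ∈ Finset.range I ×ˢ Finset.range J, (V g).card := by
      apply Finset.card_biUnion
      intro g hg g' hg' hne
      show Disjoint (V g) (V g')
      rw [Finset.disjoint_left]
      intro v hv hv'
      have h1 := hV1 g hg hv
      have h2 := hV1 g' hg' hv'
      rw [Run7.h561.mem_ctr, sd_le] at h1 h2
      simp only [tr, v0, cen] at h1 h2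
      rw [← hU] at h1 h2
      apply hne
      ext
      · rcases lt_trichotomy g.1 g'.1 with h3 | h3 | h3
        · have := mulU a m h3
          rw [← hU] at this
          omega
        · exact h3
        · have := mulU a m h3
          rw [← hU] at this
          omega
      · rcases lt_trichotomy g.2 g'.2 with h3 | h3 | h3
        · have := mulU a m h3
          rw [← hU] at this
          omega
        · exact h3
        · have := mulU a m h3
          rw [← hU] at this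
          omega
    have h1 : ((I * J : ℕ) : ℝ) * (c0 * (m : ℝ) ^ (4 / 3 : ℝ)) ≤
        ∑ g ∈ Finset.range I ×ˢ Finset.range J, ((V g).card : ℝ) := by
      have h2 : ∑ g ∈ Finset.range I ×ˢ Finset.range J, (c0 * (m : ℝ) ^ (4 / 3 : ℝ)) ≤
          ∑ g ∈ Finset.range I ×ˢ Finset.range J, ((V g).card : ℝ) :=
        Finset.sum_le_sum fun g hg => hV2 g hg
      rw [Finset.sum_const, nsmul_eq_mul, Finset.card_product, Finset.card_range,
        Finset.card_range] at h2
      exact h2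
    refine h1.trans ?_
    have h3 : ∑ g ∈ Finset.range I ×ˢ Finset.range J, ((V g).card : ℝ) =
        ((∑ g ∈ Finset.range I ×ˢ Finset.range J, (V g).card : ℕ) : ℝ) := by push_cast; rfl
    rw [h3, ← hdisj]
    exact_mod_cast hcard
  · obtain ⟨s, s1, s2, s3⟩ := Gd_line (gs (256 * ((I : ℤ) * b)) hI16 le_rfl)
    refine ⟨u, Reach.refl _ _, _, s3, ?_⟩
    unfold Plain.sqDist
    rw [hu]
    simp only
    have e1 : 2 * ((m : ℤ) * (256 * ((I : ℤ) * b))) = 256 * ((I : ℤ) * U) := by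
      rw [← hbm]; ring
    rw [e16, e1]
    have h1 : (n : ℤ) ≤ 4 * (256 * ((I : ℤ) * U) - 16 * U) := by omega
    have h2 : (n : ℤ) ^ 2 ≤ (4 * (256 * ((I : ℤ) * U) - 16 * U)) ^ 2 :=
      pow_le_pow_left₀ (by positivity) h1 2
    nlinarith [sq_nonneg (s0' - s)]

end Run7.h537.AT
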