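import Pool.Agent.Run7.h561.TP.Chain

/-! The comb: open cells (a spine, teeth, connectors), closed cells (slits) and gadgets. -/

set_option autoImplicit false

namespace Run7.h537.AT

open H974 Finset H984P H984N
open Run7.h561

/-- The centre of the gadget. -/
def cen (a m : ℕ) (g : ℕ × ℕ) : Vtx :=
  (256 * ((g.1 : ℤ) * (a * m)) + 256 * (a * m), 160 * (a * m) + 32 * ((g.2 : ℤ) * (a * m)))

/-- The positions of the open cells. -/
def OA (a m I J : ℕ) (v : Vtx) : Prop :=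
  (v.2 = 24 * ((a : ℤ) * m) + 32 * ((J : ℤ) * (a * m)) ∧ 16 * ((a : ℤ) * m) ≤ v.1 ∧
    v.1 ≤ 256 * ((I : ℤ) * (a * m))) ∨
  (∃ s : ℕ, s < I ∧ v.1 = 256 * ((s : ℤ) * (a * m)) + 16 * (a * m) ∧ 48 * ((a : ℤ) * m) ≤ v.2 ∧
    v.2 ≤ 24 * ((a : ℤ) * m) + 32 * ((J : ℤ) * (a * m))) ∨
  (∃ s t : ℕ, s < I ∧ t < J ∧ v.2 = 48 * ((a : ℤ) * m) + 32 * ((t : ℤ) * (a * m)) ∧
    256 * ((s : ℤ) * (a * m)) + 16 * (a * m) ≤ v.1 ∧
    v.1 ≤ 256 * ((s : ℤ) * (a * m)) + 128 * (a * m)) ∨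
  (∃ s t : ℕ, s < I ∧ t < J ∧ v.1 = 256 * ((s : ℤ) * (a * m)) + 128 * (a * m) ∧
    39 * ((a : ℤ) * m) + 32 * ((t : ℤ) * (a * m)) + 2 * m ≤ v.2 ∧
    v.2 ≤ 48 * ((a : ℤ) * m) + 32 * ((t : ℤ) * (a * m)))

/-- The positions of the closed cells. -/
def CA (a m I J : ℕ) (v : Vtx) : Prop :=
  ∃ s : ℕ, s < I ∧ v.1 = 256 * ((s : ℤ) * (a * m)) + 256 * (a * m) ∧ 0 ≤ v.2 ∧
    v.2 + 8 * (a * m) ≤ 32 * ((J : ℤ) * (a * m))

/-- All the cells. -/
noncomputable def Cells (b I J : ℕ) : Finset (ℤ × ℤ) :=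
  Finset.Icc (0 : ℤ) (256 * (I * b) : ℕ) ×ˢ Finset.Icc (0 : ℤ) ((24 + 32 * J) * b : ℕ)

open Classical in
/-- The open cells. -/
noncomputable def OC (a b m I J : ℕ) : Finset (ℤ × ℤ) :=
  (Cells b I J).filter (fun q => OA a m I J (cell m q))

open Classical in
/-- The closed cells. -/
noncomputable def CC (a b m I J : ℕ) : Finset (ℤ × ℤ) :=
  (Cells b I J).filter (fun q => CA a m I J (cell m q))

theorem Cells_card {b I J : ℕ} (hb : 1 ≤ b) (hI : 1 ≤ I) (hJ : 1 ≤ J) :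
    (Cells b I J).card ≤ 257 * 57 * (b * b) * (I * J) := by
  unfold Cells
  rw [Finset.card_product, Int.card_Icc, Int.card_Icc]
  have e1 : (((256 * (I * b) : ℕ) : ℤ) + 1 - 0).toNat = 256 * (I * b) + 1 := by omega
  have e2 : ((((24 + 32 * J) * b : ℕ) : ℤ) + 1 - 0).toNat = (24 + 32 * J) * b + 1 := by omega
  rw [e1, e2]
  have h1 : 1 ≤ I * b := Nat.one_le_iff_ne_zero.2 (by positivity)
  have h2 : 1 ≤ J * b := Nat.one_le_iff_ne_zero.2 (by positivity)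
  have h3 : b ≤ J * b := Nat.le_mul_of_pos_left b (by omega)
  calc (256 * (I * b) + 1) * ((24 + 32 * J) * b + 1) ≤ (257 * (I * b)) * (57 * (J * b)) := by
        apply Nat.mul_le_mul
        · omega
        · have : (24 + 32 * J) * b = 24 * b + 32 * (J * b) := by ring
          omega
    _ = _ := by ring

theorem Cells_of {a b m I J : ℕ} (hab : a = 2 * b) (hm : 1 ≤ m) {q : ℤ × ℤ} (h1 : 0 ≤ (cell m q).1)
    (h2 : (cell m q).1 ≤ 256 * ((I : ℤ) * (a * m))) (h3 : 0 ≤ (cell m q).2)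
    (h4 : (cell m q).2 ≤ 24 * ((a : ℤ) * m) + 32 * ((J : ℤ) * (a * m))) : q ∈ Cells b I J := by
  unfold Cells
  rw [Finset.mem_product, Finset.mem_Icc, Finset.mem_Icc]
  simp only [cell] at h1 h2 h3 h4
  have hm' : (0 : ℤ) < m := by exact_mod_cast hm
  have hab' : (a : ℤ) = 2 * b := by exact_mod_cast hab
  rw [hab'] at h2 h4
  refine ⟨⟨?_, ?_⟩, ?_, ?_⟩
  · by_contra h
    push Not at h
    have := mul_neg_of_pos_of_neg hm' h
    omega
  · push_cast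
    apply le_of_mul_le_mul_left (a := (m : ℤ)) _ hm'
    have e : (m : ℤ) * (256 * (I * b)) = 256 * (I * (b * m)) := by ring
    have e' : 256 * ((I : ℤ) * (2 * b * m)) = 512 * (I * (b * m)) := by ring
    rw [e'] at h2
    rw [e]
    omega
  · by_contra h
    push Not at h
    have := mul_neg_of_pos_of_neg hm' h
    omega
  · push_cast
    apply le_of_mul_le_mul_left (a := (m : ℤ)) _ hm'
    have e : (m : ℤ) * ((24 + 32 * J) * b) = 24 * (b * m) + 32 * (J * (b * m)) := by ring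
    have e' : 24 * (2 * (b : ℤ) * m) + 32 * (J * (2 * b * m)) = 48 * (b * m) + 64 * (J * (b * m)) := by
      ring
    rw [e'] at h4
    rw [e]
    omega

/-- bounds of the positions -/
theorem OA_bd {a m I J : ℕ} {v : Vtx} (hJ : 1 ≤ J) (ham : 24 * m ≤ a * m) (h : OA a m I J v) :
    (16 * ((a : ℤ) * m) ≤ v.1 ∧ v.1 ≤ 256 * ((I : ℤ) * (a * m))) ∧
      39 * ((a : ℤ) * m) ≤ v.2 ∧ v.2 ≤ 24 * ((a : ℤ) * m) + 32 * ((J : ℤ) * (a * m)) := by
  have hU : 0 ≤ (a : ℤ) * m := by positivity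
  have hmU : 24 * (m : ℤ) ≤ (a : ℤ) * m := by exact_mod_cast ham
  have key : ∀ s K : ℕ, s < K → (s : ℤ) * (a * m) + a * m ≤ K * (a * m) := by
    intro s K h
    have : ((s : ℤ) + 1) * (a * m) ≤ K * (a * m) :=
      mul_le_mul_of_nonneg_right (by exact_mod_cast h) hU
    linarith
  have key0 : ∀ s : ℕ, 0 ≤ (s : ℤ) * (a * m) := fun s => by positivity
  have hJ1 := key 0 J (by omega)
  rcases h with ⟨h1, h2, h3⟩ | ⟨s, hs, h1, h2, h3⟩ | ⟨s, t, hs, ht, h1, h2, h3⟩ |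
    ⟨s, t, hs, ht, h1, h2, h3⟩
  · push_cast at hJ1
    refine ⟨⟨?_, ?_⟩, ?_, ?_⟩ <;> omega
  · have k1 := key s I hs
    have k2 := key0 s
    refine ⟨⟨?_, ?_⟩, ?_, ?_⟩ <;> omega
  · have k1 := key s I hs
    have k2 := key0 s
    have k3 := key t J ht
    have k4 := key0 t
    refine ⟨⟨?_, ?_⟩, ?_, ?_⟩ <;> omega
  · have k1 := key s I hs
    have k2 := key0 s
    have k3 := key t J ht
    have k4 := key0 t
    refine ⟨⟨?_, ?_⟩, ?_, ?_⟩ <;> omega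

theorem mem_OC {a b m I J : ℕ} (hab : a = 2 * b) (hm : 1 ≤ m) (hJ : 1 ≤ J)
    (ham : 24 * m ≤ a * m) {q : ℤ × ℤ} : q ∈ OC a b m I J ↔ OA a m I J (cell m q) := by
  classical
  unfold OC
  rw [Finset.mem_filter]
  refine ⟨fun h => h.2, fun h => ⟨?_, h⟩⟩
  have hU : 0 ≤ (a : ℤ) * m := by positivity
  obtain ⟨⟨h1, h2⟩, h3, h4⟩ := OA_bd hJ ham h
  exact Cells_of hab hm (by omega) h2 (by omega) h4

theorem mem_CC {a b m I J : ℕ} (hab : a = 2 * b) (hm : 1 ≤ m) {q : ℤ × ℤ} :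
    q ∈ CC a b m I J ↔ CA a m I J (cell m q) := by
  classical
  unfold CC
  rw [Finset.mem_filter]
  refine ⟨fun h => h.2, fun h => ⟨?_, h⟩⟩
  have hU : 0 ≤ (a : ℤ) * m := by positivity
  obtain ⟨s, hs, h1, h2, h3⟩ := h
  have k1 : ((s : ℤ) + 1) * (a * m) ≤ I * (a * m) :=
    mul_le_mul_of_nonneg_right (by exact_mod_cast hs) hU
  have k2 : 0 ≤ (s : ℤ) * (a * m) := by positivity
  rw [add_mul, one_mul] at k1
  exact Cells_of hab hm (by omega) (by omega) h2 (by omega)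

/-! ### The cells of the chain -/

theorem oa_spine {a b m I J : ℕ} (hab : a = 2 * b) {k : ℤ} (h1 : 16 * (b : ℤ) ≤ k)
    (h2 : k ≤ 256 * ((I : ℤ) * b)) : OA a m I J (cell m (k, (24 + 32 * (J : ℤ)) * b)) := by
  have hab' : (a : ℤ) = 2 * b := by exact_mod_cast hab
  have hm' : (0 : ℤ) ≤ m := by positivity
  have k1 := mul_le_mul_of_nonneg_left h1 hm'
  have k2 := mul_le_mul_of_nonneg_left h2 hm'
  left
  simp only [cell, hab']
  refine ⟨by ring, ?_, ?_⟩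
  · linarith
  · linarith

theorem oa_tooth {a b m I J : ℕ} (hab : a = 2 * b) {s : ℕ} (hs : s < I) {k : ℤ}
    (h1 : 48 * (b : ℤ) ≤ k) (h2 : k ≤ (24 + 32 * (J : ℤ)) * b) :
    OA a m I J (cell m ((256 * (s : ℤ) + 16) * b, k)) := by
  have hab' : (a : ℤ) = 2 * b := by exact_mod_cast hab
  have hm' : (0 : ℤ) ≤ m := by positivity
  have k1 := mul_le_mul_of_nonneg_left h1 hm'
  have k2 := mul_le_mul_of_nonneg_left h2 hm'
  right; left
  refine ⟨s, hs, ?_, ?_, ?_⟩ <;> simp only [cell, hab']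
  · ring
  · linarith
  · linarith

theorem oa_conn {a b m I J : ℕ} (hab : a = 2 * b) {s t : ℕ} (hs : s < I) (ht : t < J) {k : ℤ}
    (h1 : (256 * (s : ℤ) + 16) * b ≤ k) (h2 : k ≤ (256 * (s : ℤ) + 128) * b) :
    OA a m I J (cell m (k, (48 + 32 * (t : ℤ)) * b)) := by
  have hab' : (a : ℤ) = 2 * b := by exact_mod_cast hab
  have hm' : (0 : ℤ) ≤ m := by positivity
  have k1 := mul_le_mul_of_nonneg_left h1 hm'
  have k2 := mul_le_mul_of_nonneg_left h2 hm'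
  right; right; left
  refine ⟨s, t, hs, ht, ?_, ?_, ?_⟩ <;> simp only [cell, hab']
  · ring
  · linarith
  · linarith

theorem oa_down {a b m I J : ℕ} (hab : a = 2 * b) {s t : ℕ} (hs : s < I) (ht : t < J) {k : ℤ}
    (h1 : (39 + 32 * (t : ℤ)) * b + 1 ≤ k) (h2 : k ≤ (48 + 32 * (t : ℤ)) * b) :
    OA a m I J (cell m ((256 * (s : ℤ) + 128) * b, k)) := by
  have hab' : (a : ℤ) = 2 * b := by exact_mod_cast hab
  have hm' : (0 : ℤ) ≤ m := by positivity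
  have k1 := mul_le_mul_of_nonneg_left h1 hm'
  have k2 := mul_le_mul_of_nonneg_left h2 hm'
  right; right; right
  refine ⟨s, t, hs, ht, ?_, ?_, ?_⟩ <;> simp only [cell, hab']
  · ring
  · linarith
  · linarith

end Run7.h537.AT
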