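import Pool.Agent.Run7.h537.AT.LGeo
import Pool.Agent.Run7.h561.TP.P_SURG

/-! The edge sets of the comb. -/

set_option autoImplicit false

namespace Run7.h537.AT

open H974 Finset H984P H984N
open Run7.h561 Run7.h561.SURG

/-- the edges of the open cells -/
noncomputable def T1 (a b m I J : ℕ) : Finset Edg :=
  (OC a b m I J).biUnion (fun q => H12S.blk (cell m q) (3 * m))

/-- the edges of the closed cells -/
noncomputable def T2 (a b m I J : ℕ) : Finset Edg :=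
  (CC a b m I J).biUnion (fun q => H12S.blk (cell m q) (6 * m))

/-- the edges of the gadget -/
noncomputable def TGs (a m : ℕ) (g : ℕ × ℕ) : Finset Edg :=
  (trl (cen a m g).1 (cen a m g).2).mp (TG a m)

theorem T1_pos {a b m I J : ℕ} (hab : a = 2 * b) (hm : 1 ≤ m) (hJ : 1 ≤ J)
    (ham : 24 * m ≤ a * m) {e : Edg} (he : e ∈ T1 a b m I J) : ∃ v : Vtx, OA a m I J v ∧
      sd (src e) v ≤ 3 * m ∧ sd (tgt e) v ≤ 3 * m := by
  unfold T1 at he
  rw [Finset.mem_biUnion] at he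
  obtain ⟨q, hq, h⟩ := he
  rw [mem_OC hab hm hJ ham] at hq
  rw [mem_blk] at h
  push_cast at h
  exact ⟨_, hq, h⟩

theorem T2_pos {a b m I J : ℕ} (hab : a = 2 * b) (hm : 1 ≤ m) {e : Edg}
    (he : e ∈ T2 a b m I J) : ∃ v : Vtx, CA a m I J v ∧
      sd (src e) v ≤ 6 * m ∧ sd (tgt e) v ≤ 6 * m := by
  unfold T2 at he
  rw [Finset.mem_biUnion] at he
  obtain ⟨q, hq, h⟩ := he
  rw [mem_CC hab hm] at hq
  rw [mem_blk] at h
  push_cast at h
  exact ⟨_, hq, h⟩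

theorem TGs_pos {a m : ℕ} (ha : 24 ≤ a) {g : ℕ × ℕ} {e : Edg} (he : e ∈ TGs a m g) :
    (-(138 * ((a : ℤ) * m)) ≤ (src e).1 - (cen a m g).1 ∧ (src e).1 - (cen a m g).1 ≤ (a : ℤ) * m) ∧
    (-(138 * ((a : ℤ) * m)) ≤ (src e).2 - (cen a m g).2 ∧
      (src e).2 - (cen a m g).2 ≤ -(118 * ((a : ℤ) * m))) ∧
    (-(138 * ((a : ℤ) * m)) ≤ (tgt e).1 - (cen a m g).1 ∧ (tgt e).1 - (cen a m g).1 ≤ (a : ℤ) * m) ∧
    (-(138 * ((a : ℤ) * m)) ≤ (tgt e).2 - (cen a m g).2 ∧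
      (tgt e).2 - (cen a m g).2 ≤ -(118 * ((a : ℤ) * m))) := by
  unfold TGs at he
  rw [mp_trl_mem] at he
  have := TG_box ha he
  rw [src_shift, tgt_shift] at this
  simp only at this
  exact this

theorem mulU (a m : ℕ) {s K : ℕ} (h : s < K) :
    (s : ℤ) * (a * m) + a * m ≤ K * (a * m) := by
  have hU : 0 ≤ (a : ℤ) * m := by positivity
  have : ((s : ℤ) + 1) * (a * m) ≤ K * (a * m) :=
    mul_le_mul_of_nonneg_right (by exact_mod_cast h) hU
  linarith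

theorem mulU0 (a m : ℕ) (s : ℕ) : 0 ≤ (s : ℤ) * (a * m) := by positivity

theorem T1_sub {a b m I J n : ℕ} (hab : a = 2 * b) (hm : 1 ≤ m) (hJ : 1 ≤ J)
    (ham : 24 * m ≤ a * m) (hn1 : 256 * (I * (a * m)) + a * m ≤ n)
    (hn2 : 32 * (J * (a * m)) + 25 * (a * m) ≤ n) : T1 a b m I J ⊆ RE 0 n 0 n := by
  intro e he
  obtain ⟨v, hv, h1, h2⟩ := T1_pos hab hm hJ ham he
  have h3 := OA_bd hJ ham hv
  rw [sd_le] at h1 h2
  rw [mem_RE]
  unfold inR
  have hmU : 24 * (m : ℤ) ≤ (a : ℤ) * m := by exact_mod_cast ham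
  have hm' : (1 : ℤ) ≤ m := by exact_mod_cast hm
  zify at hn1 hn2
  refine ⟨⟨⟨?_, ?_⟩, ?_, ?_⟩, ⟨?_, ?_⟩, ?_, ?_⟩ <;> omega

theorem T12_disj {a b m I J : ℕ} (hab : a = 2 * b) (hm : 1 ≤ m) (hJ : 1 ≤ J)
    (ham : 24 * m ≤ a * m) : Disjoint (T1 a b m I J) (T2 a b m I J) := by
  rw [Finset.disjoint_left]
  intro e he he'
  obtain ⟨v, hv, h1, -⟩ := T1_pos hab hm hJ ham he
  obtain ⟨w, ⟨s', hs', w1, w2, w3⟩, h2, -⟩ := T2_pos hab hm he'
  rw [sd_le] at h1 h2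
  have hmU : 24 * (m : ℤ) ≤ (a : ℤ) * m := by exact_mod_cast ham
  have hm' : (1 : ℤ) ≤ m := by exact_mod_cast hm
  have key : ∀ s : ℕ, (s : ℤ) * (a * m) ≤ s' * (a * m) ∨ (s' : ℤ) * (a * m) + a * m ≤ s * (a * m) := by
    intro s
    rcases le_or_gt s s' with h | h
    · left
      exact mul_le_mul_of_nonneg_right (by exact_mod_cast h) (by positivity)
    · right
      exact mulU a m h
  rcases hv with ⟨v1, v2, v3⟩ | ⟨s, hs, v1, v2, v3⟩ | ⟨s, t, hs, ht, v1, v2, v3⟩ |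
    ⟨s, t, hs, ht, v1, v2, v3⟩
  · omega
  · rcases key s with k | k <;> omega
  · rcases key s with k | k <;> omega
  · rcases key s with k | k <;> omega

theorem TGs_sub {a m I J n : ℕ} (ha : 24 ≤ a) (hm : 1 ≤ m)
    (hn1 : 256 * (I * (a * m)) + a * m ≤ n)
    (hn2 : 32 * (J * (a * m)) + 25 * (a * m) ≤ n) {g : ℕ × ℕ} (hg1 : g.1 < I) (hg2 : g.2 < J) :
    TGs a m g ⊆ RE 0 n 0 n := by
  intro e he
  have h := TGs_pos ha he
  simp only [cen] at h
  rw [mem_RE]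
  unfold inR
  have k1 := mulU a m hg1
  have k2 := mulU a m hg2
  have k3 := mulU0 a m g.1
  have k4 := mulU0 a m g.2
  have hU : 0 ≤ (a : ℤ) * m := by positivity
  zify at hn1 hn2
  refine ⟨⟨⟨?_, ?_⟩, ?_, ?_⟩, ⟨?_, ?_⟩, ?_, ?_⟩ <;> omega

theorem TGs_disj {a m : ℕ} (ha : 24 ≤ a) (hm : 1 ≤ m) {g g' : ℕ × ℕ} (hgg : g ≠ g') :
    Disjoint (TGs a m g) (TGs a m g') := by
  rw [Finset.disjoint_left]
  intro e he he'
  have h := TGs_pos ha he
  have h' := TGs_pos ha he'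
  simp only [cen] at h h'
  have hU : 1 ≤ (a : ℤ) * m := by
    have : 1 ≤ a * m := Nat.one_le_iff_ne_zero.2 (by positivity)
    exact_mod_cast this
  apply hgg
  ext
  · rcases lt_trichotomy g.1 g'.1 with h1 | h1 | h1
    · have := mulU a m h1
      omega
    · exact h1
    · have := mulU a m h1
      omega
  · rcases lt_trichotomy g.2 g'.2 with h1 | h1 | h1
    · have := mulU a m h1
      omega
    · exact h1
    · have := mulU a m h1
      omega

/-- The open cells meet the edges of a gadget only in `TI`. -/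
theorem T1_TI {a b m I J : ℕ} (hab : a = 2 * b) (ha : 24 ≤ a) (hm : 1 ≤ m) (hJ : 1 ≤ J)
    {g : ℕ × ℕ} (hg1 : g.1 < I) (hg2 : g.2 < J) {e : Edg} (he : e ∈ T1 a b m I J)
    (he' : e ∈ TGs a m g) : e ∈ (trl (cen a m g).1 (cen a m g).2).mp (TI a m) := by
  have ham : 24 * m ≤ a * m := Nat.mul_le_mul_right m ha
  obtain ⟨v, hv, h1, h2⟩ := T1_pos hab hm hJ ham he
  have h := TGs_pos ha he'
  rw [mp_trl_mem]
  unfold TI
  rw [mem_RE, src_shift, tgt_shift]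
  unfold inR
  rw [sd_le] at h1 h2
  simp only [cen] at h ⊢
  have hmU : 24 * (m : ℤ) ≤ (a : ℤ) * m := by exact_mod_cast ham
  have hm' : (1 : ℤ) ≤ m := by exact_mod_cast hm
  have k1 := mulU a m hg1
  have k2 := mulU a m hg2
  have key : ∀ s s' : ℕ, s = s' ∨ (s : ℤ) * (a * m) + a * m ≤ s' * (a * m) ∨
      (s' : ℤ) * (a * m) + a * m ≤ s * (a * m) := by
    intro s s'
    rcases lt_trichotomy s s' with h | h | h
    · right; left; exact mulU a m h
    · left; exact h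
    · right; right; exact mulU a m h
  rcases hv with ⟨v1, v2, v3⟩ | ⟨s, hs, v1, v2, v3⟩ | ⟨s, t, hs, ht, v1, v2, v3⟩ |
    ⟨s, t, hs, ht, v1, v2, v3⟩
  · exfalso; omega
  · exfalso
    rcases key s g.1 with k | k | k
    · rw [k] at v1; omega
    · omega
    · omega
  · exfalso
    rcases key t g.2 with k | k | k
    · rw [k] at v1; omega
    · omega
    · omega
  · rcases key s g.1 with k | k | k
    · rcases key t g.2 with k' | k' | k'
      · rw [k] at v1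
        rw [k'] at v2 v3
        refine ⟨⟨⟨?_, ?_⟩, ?_, ?_⟩, ⟨?_, ?_⟩, ?_, ?_⟩ <;> omega
      · exfalso; omega
      · exfalso; omega
    · exfalso; omega
    · exfalso; omega

/-- The closed cells meet the edges of a gadget only in `TD`. -/
theorem T2_TD {a b m I J : ℕ} (hab : a = 2 * b) (ha : 24 ≤ a) (hm : 1 ≤ m)
    {g : ℕ × ℕ} {e : Edg} (he : e ∈ T2 a b m I J)
    (he' : e ∈ TGs a m g) : e ∈ (trl (cen a m g).1 (cen a m g).2).mp (TD a m) := by
  have ham : 24 * m ≤ a * m := Nat.mul_le_mul_right m ha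
  obtain ⟨v, ⟨s, hs, v1, v2, v3⟩, h1, h2⟩ := T2_pos hab hm he
  have h := TGs_pos ha he'
  rw [mp_trl_mem]
  unfold TD
  rw [mem_RE, src_shift, tgt_shift]
  unfold inR
  rw [sd_le] at h1 h2
  simp only [cen] at h ⊢
  have hmU : 24 * (m : ℤ) ≤ (a : ℤ) * m := by exact_mod_cast ham
  have hm' : (1 : ℤ) ≤ m := by exact_mod_cast hm
  rcases lt_trichotomy s g.1 with k | k | k
  · exfalso
    have := mulU a m k
    omega
  · rw [k] at v1
    refine ⟨⟨⟨?_, ?_⟩, ?_, ?_⟩, ⟨?_, ?_⟩, ?_, ?_⟩ <;> omega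
  · exfalso
    have := mulU a m k
    omega

end Run7.h537.AT
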