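import Pool.Agent.TH992.T.Tail3

/-! Dyadic sums of the tails. -/

set_option autoImplicit false

namespace Run7.h537.AT

open Finset

theorem term_le {c x y : ℝ} (hc : 0 < c) (hx : 1 ≤ x) (hy : 1 ≤ y) :
    (2 * y) ^ 2 * (9 * Real.exp (-(c * (x ^ 3 * y ^ 4)))) ≤
      72 / c * Real.exp (-(c / 2 * x ^ 3)) * y⁻¹ := by
  have hx3 : 1 ≤ x ^ 3 := one_le_pow₀ hx
  have hy4 : 1 ≤ y ^ 4 := one_le_pow₀ hy
  have hy0 : 0 < y := by linarith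
  have h1 : Real.exp (-(c * (x ^ 3 * y ^ 4))) ≤
      Real.exp (-(c / 2 * x ^ 3)) * Real.exp (-(c / 2 * y ^ 4)) := by
    rw [← Real.exp_add]
    apply Real.exp_le_exp.2
    nlinarith [mul_nonneg (sub_nonneg.2 hx3) (sub_nonneg.2 hy4), mul_pos hc (by positivity : 0 < x ^ 3)]
  have h2 : Real.exp (-(c / 2 * y ^ 4)) ≤ (c / 2 * y ^ 4)⁻¹ := by
    rw [Real.exp_neg]
    apply inv_anti₀ (by positivity)
    have := Real.add_one_le_exp (c / 2 * y ^ 4)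
    linarith
  have h3 : (2 * y) ^ 2 * (9 * (c / 2 * y ^ 4)⁻¹) ≤ 72 / c * y⁻¹ := by
    have e : (2 * y) ^ 2 * (9 * (c / 2 * y ^ 4)⁻¹) = 72 / c * (y ^ 2)⁻¹ := by
      field_simp
      ring
    rw [e]
    apply mul_le_mul_of_nonneg_left _ (by positivity)
    apply inv_anti₀ hy0
    nlinarith
  have hE := Real.exp_pos (-(c / 2 * x ^ 3))
  calc (2 * y) ^ 2 * (9 * Real.exp (-(c * (x ^ 3 * y ^ 4))))
      ≤ (2 * y) ^ 2 * (9 * (Real.exp (-(c / 2 * x ^ 3)) * (c / 2 * y ^ 4)⁻¹)) := by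
        apply mul_le_mul_of_nonneg_left _ (by positivity)
        apply mul_le_mul_of_nonneg_left _ (by norm_num)
        exact h1.trans (mul_le_mul_of_nonneg_left h2 hE.le)
    _ = Real.exp (-(c / 2 * x ^ 3)) * ((2 * y) ^ 2 * (9 * (c / 2 * y ^ 4)⁻¹)) := by ring
    _ ≤ Real.exp (-(c / 2 * x ^ 3)) * (72 / c * y⁻¹) := mul_le_mul_of_nonneg_left h3 hE.le
    _ = _ := by ring

theorem sum_le {c x : ℝ} (hc : 0 < c) (hx : 1 ≤ x) {n : ℕ} (hn : 1 ≤ n) :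
    ∑ k ∈ Finset.range (Nat.log 2 n + 1), (2 * ((n : ℝ) / 2 ^ k)) ^ 2 *
      (9 * Real.exp (-(c * (x ^ 3 * ((n : ℝ) / 2 ^ k) ^ 4)))) ≤
      144 / c * Real.exp (-(c / 2 * x ^ 3)) := by
  have hn0 : (0:ℝ) < n := by exact_mod_cast hn
  have h1 : ∀ k ∈ Finset.range (Nat.log 2 n + 1), (2 * ((n : ℝ) / 2 ^ k)) ^ 2 *
      (9 * Real.exp (-(c * (x ^ 3 * ((n : ℝ) / 2 ^ k) ^ 4)))) ≤
      72 / c * Real.exp (-(c / 2 * x ^ 3)) * (2 ^ k / n) := by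
    intro k hk
    rw [Finset.mem_range] at hk
    have h2 : 2 ^ k ≤ n := by
      refine (Nat.pow_le_pow_right (by norm_num) (by omega : k ≤ Nat.log 2 n)).trans ?_
      exact Nat.pow_log_le_self 2 (by omega)
    have h3 : (1:ℝ) ≤ (n : ℝ) / 2 ^ k := by
      rw [le_div_iff₀ (by positivity), one_mul]
      exact_mod_cast h2
    refine (term_le hc hx h3).trans (le_of_eq ?_)
    rw [inv_div]
  refine (Finset.sum_le_sum h1).trans ?_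
  rw [← Finset.mul_sum, ← Finset.sum_div]
  have h2 : ∑ k ∈ Finset.range (Nat.log 2 n + 1), (2:ℝ) ^ k ≤ 2 * n := by
    have h3 := geom_sum_eq (show (2:ℝ) ≠ 1 by norm_num) (Nat.log 2 n + 1)
    rw [h3]
    have h4 : (2:ℝ) ^ Nat.log 2 n ≤ n := by
      exact_mod_cast Nat.pow_log_le_self 2 (by omega : n ≠ 0)
    rw [pow_succ]
    norm_num
    linarith
  have hE := Real.exp_pos (-(c / 2 * x ^ 3))
  have h5 : (∑ k ∈ Finset.range (Nat.log 2 n + 1), (2:ℝ) ^ k) / n ≤ 2 := by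
    rw [div_le_iff₀ hn0]; exact h2
  calc 72 / c * Real.exp (-(c / 2 * x ^ 3)) * ((∑ k ∈ Finset.range (Nat.log 2 n + 1), (2:ℝ) ^ k) / n)
      ≤ 72 / c * Real.exp (-(c / 2 * x ^ 3)) * 2 :=
        mul_le_mul_of_nonneg_left h5 (by positivity)
    _ = _ := by ring

theorem scale_eq {l x : ℝ} (hl : 0 < l) (hx : 0 ≤ x) {n : ℕ} (k : ℕ) :
    (x * (n:ℝ) ^ (4/3:ℝ) / ((3 * 2 ^ k : ℕ) : ℝ) ^ (2 - 2/3:ℝ) / l) ^ (2 / (2/3:ℝ)) =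
      1 / (81 * l ^ 3) * (x ^ 3 * ((n:ℝ) / 2 ^ k) ^ 4) := by
  have e0 : (2 / (2/3:ℝ)) = ((3:ℕ):ℝ) := by norm_num
  rw [e0, Real.rpow_natCast]
  have hn : (0:ℝ) ≤ n := by positivity
  have e1 : (x * (n:ℝ) ^ (4/3:ℝ) / ((3 * 2 ^ k : ℕ) : ℝ) ^ (2 - 2/3:ℝ) / l) ^ 3 =
      x ^ 3 * ((n:ℝ) ^ (4/3:ℝ)) ^ 3 / (((3 * 2 ^ k : ℕ) : ℝ) ^ (2 - 2/3:ℝ)) ^ 3 / l ^ 3 := by
    rw [div_pow, div_pow, mul_pow]
  rw [e1]
  have e2 : ((n:ℝ) ^ (4/3:ℝ)) ^ 3 = (n:ℝ) ^ 4 := by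
    rw [← Real.rpow_natCast, ← Real.rpow_mul hn]
    norm_num
  have e3 : (((3 * 2 ^ k : ℕ) : ℝ) ^ (2 - 2/3:ℝ)) ^ 3 = (3 * 2 ^ k) ^ 4 := by
    rw [← Real.rpow_natCast, ← Real.rpow_mul (by positivity)]
    norm_num
  rw [e2, e3]
  rw [mul_pow, div_pow]
  field_simp
  norm_num

end Run7.h537.AT
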