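import Pool.Agent.Run7.h537.AT.UDet
import Pool.Agent.Run7.h537.AT.USum

/-! The upper tail. -/

set_option autoImplicit false

namespace Run7.h537.AT

open H974 H12S Finset H389NS H984P H984N H342P
open Pool.Agent.W424.OD
open TH992.T (Bq mem_Bq card_Bq Nb Yb Fam RE_sub_RE)

theorem up {C : ℝ} (hC : 1 ≤ C) (hU : ∀ (c : ℤ × ℤ) (k : ℕ), 1 ≤ k → ∀ S : Finset Edg,
    blk c k ⊆ S → PQ (1/2) S (fun F => A3v c 1 k ↑F) ≤ C * (k : ℝ) ^ (-(2/3):ℝ)) :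
    ∃ K c : ℝ, 0 < K ∧ 0 < c ∧ ∀ n : ℕ, 1 ≤ n → ∀ x : ℝ, 0 ≤ x →
      PQ (1/2) (RE 0 n 0 n) (fun F => ∃ v, x * (n:ℝ) ^ (4/3:ℝ) ≤ ((accessible n F v).card : ℝ)) ≤
        K * Real.exp (-(c * x ^ 3)) := by
  obtain ⟨l, hl, ht⟩ := TH992.T.tail1 (a := 2/3) (C0 := 40 * C) (by norm_num) (by norm_num) 1
    (by linarith)
  have hc1 : 0 < 1 / (81 * l ^ 3) := by positivity
  refine ⟨Real.exp (1 / (81 * l ^ 3) / 2) + 144 / (1 / (81 * l ^ 3)), 1 / (81 * l ^ 3) / 2,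
    by positivity, by positivity, fun n hn x hx => ?_⟩
  set c1 := 1 / (81 * l ^ 3) with hc1'
  have hn0 : (0:ℝ) < n := by exact_mod_cast hn
  have hn1 : (1:ℝ) ≤ n := by exact_mod_cast hn
  rcases le_or_gt x 1 with hx1 | hx1
  · refine (Pr_le_one ok2 _ _).trans ?_
    have h1 : x ^ 3 ≤ 1 := pow_le_one₀ hx hx1
    have h2 : 1 ≤ Real.exp (c1 / 2) * Real.exp (-(c1 / 2 * x ^ 3)) := by
      rw [← Real.exp_add]
      apply Real.one_le_exp
      nlinarith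
    have h3 : 0 ≤ 144 / c1 * Real.exp (-(c1 / 2 * x ^ 3)) := by positivity
    linarith
  · have hnn : (1:ℝ) ≤ (n:ℝ) ^ (4/3:ℝ) := Real.one_le_rpow hn1 (by norm_num)
    have hX : 1 < x * (n:ℝ) ^ (4/3:ℝ) := by nlinarith
    have h1 : PQ (1/2) (RE 0 n 0 n)
        (fun F => ∃ v, x * (n:ℝ) ^ (4/3:ℝ) ≤ ((accessible n F v).card : ℝ)) ≤
        PQ (1/2) (RE 0 n 0 n) (fun F => ∃ k ∈ Finset.range (Nat.log 2 n + 1),
          ∃ q ∈ Finset.range (n / 2 ^ k + 1) ×ˢ Finset.range (n / 2 ^ k + 1),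
            x * (n:ℝ) ^ (4/3:ℝ) ≤ Nb (xs n) (3 * 2 ^ k) ((2 ^ k * q.1 : ℕ) : ℤ)
              ((2 ^ k * q.2 : ℕ) : ℤ) F) := by
      refine Pr_mono ok2 fun F hF h => ?_
      obtain ⟨v, hv⟩ := h
      by_cases hvb : v ∈ Plain.box n
      · rcases diam_cases hF hvb with h2 | ⟨k, hk, i, hi, j, hj, h2⟩
        · exfalso
          have : ((accessible n F v).card : ℝ) ≤ 1 := by exact_mod_cast h2
          linarith
        · exact ⟨k, hk, (i, j), Finset.mem_product.2 ⟨hi, hj⟩, hv.trans h2⟩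
      · exfalso
        rw [acc_out hF hvb] at hv
        simp at hv
        linarith
    refine h1.trans ?_
    refine (Pr_exists_le ok2 _ _ _).trans ?_
    have h2 : ∀ k ∈ Finset.range (Nat.log 2 n + 1), Pr (fun _ => (1/2:ℝ)) (RE 0 n 0 n)
        (fun F => ∃ q ∈ Finset.range (n / 2 ^ k + 1) ×ˢ Finset.range (n / 2 ^ k + 1),
            x * (n:ℝ) ^ (4/3:ℝ) ≤ Nb (xs n) (3 * 2 ^ k) ((2 ^ k * q.1 : ℕ) : ℤ)
              ((2 ^ k * q.2 : ℕ) : ℤ) F) ≤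
        (2 * ((n : ℝ) / 2 ^ k)) ^ 2 * (9 * Real.exp (-(c1 * (x ^ 3 * ((n : ℝ) / 2 ^ k) ^ 4)))) := by
      intro k hk
      rw [Finset.mem_range] at hk
      have hk2 : 2 ^ k ≤ n := by
        refine (Nat.pow_le_pow_right (by norm_num) (by omega : k ≤ Nat.log 2 n)).trans ?_
        exact Nat.pow_log_le_self 2 (by omega)
      have hy : (1:ℝ) ≤ (n : ℝ) / 2 ^ k := by
        rw [le_div_iff₀ (by positivity), one_mul]
        exact_mod_cast hk2
      refine (Pr_exists_le ok2 _ _ _).trans ?_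
      have h3 : ∀ q ∈ Finset.range (n / 2 ^ k + 1) ×ˢ Finset.range (n / 2 ^ k + 1),
          Pr (fun _ => (1/2:ℝ)) (RE 0 n 0 n) (fun F => x * (n:ℝ) ^ (4/3:ℝ) ≤
            Nb (xs n) (3 * 2 ^ k) ((2 ^ k * q.1 : ℕ) : ℤ) ((2 ^ k * q.2 : ℕ) : ℤ) F) ≤
          9 * Real.exp (-(c1 * (x ^ 3 * ((n : ℝ) / 2 ^ k) ^ 4))) := by
        intro q _
        have hs : 1 ≤ 3 * 2 ^ k := by
          have := Nat.one_le_two_pow (n := k)
          omega
        have hsr : (0:ℝ) < ((3 * 2 ^ k : ℕ) : ℝ) := by exact_mod_cast hs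
        have h4 := ht _ _ _ (xs_fam hC hU n) (3 * 2 ^ k) ((2 ^ k * q.1 : ℕ) : ℤ)
          ((2 ^ k * q.2 : ℕ) : ℤ) (x * (n:ℝ) ^ (4/3:ℝ) / ((3 * 2 ^ k : ℕ) : ℝ) ^ (2 - 2/3:ℝ)) hs
          (by positivity)
        rw [scale_eq hl hx] at h4
        refine le_trans (Pr_mono ok2 fun F _ hF => ?_) h4
        unfold Yb
        exact div_le_div_of_nonneg_right hF (by positivity)
      refine (Finset.sum_le_sum h3).trans ?_
      rw [Finset.sum_const, nsmul_eq_mul, Finset.card_product, Finset.card_range]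
      apply mul_le_mul_of_nonneg_right _ (by positivity)
      have h5 : ((n / 2 ^ k : ℕ) : ℝ) ≤ (n : ℝ) / 2 ^ k := by
        have := Nat.cast_div_le (α := ℝ) (m := n) (n := 2 ^ k)
        push_cast at this
        exact this
      push_cast
      rw [sq]
      have h6 : ((n / 2 ^ k : ℕ) : ℝ) + 1 ≤ 2 * ((n : ℝ) / 2 ^ k) := by linarith
      exact mul_le_mul h6 h6 (by positivity) (by positivity)
    refine (Finset.sum_le_sum h2).trans ((sum_le hc1 hx1.le hn).trans ?_)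
    have h3 : 0 ≤ Real.exp (c1 / 2) * Real.exp (-(c1 / 2 * x ^ 3)) := by positivity
    linarith

end Run7.h537.AT
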